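import Mathlib
set_option autoImplicit false
open scoped InnerProductSpace ENNReal
open Filter Topology

namespace Pool.Agent.K6.H32.Conc

/-- `ℓ²` -/
abbrev l2 : Type := lp (fun _ : ℕ => ℂ) 2

abbrev HH : Type := WithLp 2 (l2 × WithLp 2 (l2 × ℂ))

noncomputable def mk (a b : l2) (c : ℂ) : HH := WithLp.toLp 2 (a, WithLp.toLp 2 (b, c))

lemma inner_mk (a b a' b' : l2) (c c' : ℂ) :
    ⟪mk a b c, mk a' b' c'⟫_ℂ = ⟪a, a'⟫_ℂ + (⟪b, b'⟫_ℂ + ⟪c, c'⟫_ℂ) := rfl

lemma exists_mk (x : HH) : ∃ a b c, x = mk a b c := ⟨x.fst, x.snd.fst, x.snd.snd, rfl⟩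

noncomputable def e (n : ℕ) : l2 := lp.single 2 n (1 : ℂ)

lemma inner_e_left (n : ℕ) (a : l2) : ⟪e n, a⟫_ℂ = a n := by
  unfold e
  rw [lp.inner_single_left]
  simp

lemma inner_e_right (n : ℕ) (a : l2) : ⟪a, e n⟫_ℂ = (starRingEnd ℂ) (a n) := by
  rw [← inner_conj_symm, inner_e_left]

lemma e_apply (m n : ℕ) : (e m : l2) n = if m = n then (1 : ℂ) else 0 := by
  unfold e
  rw [lp.single_apply]
  simp only [Pi.single_apply, eq_comm]

lemma inner_ee (m n : ℕ) : ⟪e m, e n⟫_ℂ = if m = n then (1 : ℂ) else 0 := by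
  rw [inner_e_left, e_apply]
  simp only [eq_comm]

noncomputable def geo (r : ℝ) (h0 : 0 ≤ r) (h1 : r < 1) : l2 :=
  ⟨fun n => ((r ^ n : ℝ) : ℂ), by
    refine memℓp_gen ?_
    have : Summable fun n : ℕ => (r ^ 2) ^ n :=
      summable_geometric_of_lt_one (by positivity) (by nlinarith)
    refine this.congr fun n => ?_
    rw [Complex.norm_real, Real.norm_of_nonneg (pow_nonneg h0 n)]
    norm_num
    ring⟩

lemma geo_apply (r : ℝ) (h0 : 0 ≤ r) (h1 : r < 1) (n : ℕ) : geo r h0 h1 n = (r : ℂ) ^ n := by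
  show ((r ^ n : ℝ) : ℂ) = _
  push_cast
  rfl


/-- the weights -/
noncomputable def sw (n : ℕ) : ℝ := 4 * 8 ^ n

lemma sw_pos (n : ℕ) : 0 < sw n := by unfold sw; positivity

noncomputable def Fo : ℕ → HH
  | 0 => mk (e 0) ((sw 0 : ℂ) • e 0) 0
  | n + 1 => mk (e (n + 1)) ((sw (n + 1) : ℂ) • e (n + 1) - (sw n : ℂ) • e n) 0

noncomputable def Fe (n : ℕ) : HH := mk 0 (e n) 0

noncomputable def Go (n : ℕ) : HH := mk (e n) 0 0

noncomputable def Ge (n : ℕ) : HH := mk ((sw n : ℂ) • e (n + 1) - (sw n : ℂ) • e n) (e n) 0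

noncomputable def ff (k : ℕ) : HH := if k % 2 = 0 then Fo (k / 2) else Fe (k / 2)

noncomputable def gg (k : ℕ) : HH := if k % 2 = 0 then Go (k / 2) else Ge (k / 2)

noncomputable def zz : HH := mk 0 0 1

/-- the second coordinates of the scalar product with `Fo` -/
lemma inner_Fo (n : ℕ) (c d : l2) (η : ℂ) : ⟪Fo n, mk c d η⟫_ℂ =
    c n + (sw n * d n - if n = 0 then 0 else sw (n - 1) * d (n - 1)) := by
  cases n with
  | zero =>
    rw [Fo, inner_mk, inner_e_left, inner_smul_left, inner_e_left]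
    simp
  | succ n =>
    rw [Fo, inner_mk, inner_e_left, inner_sub_left, inner_smul_left, inner_smul_left,
      inner_e_left, inner_e_left]
    simp

lemma inner_Fe (n : ℕ) (c d : l2) (η : ℂ) : ⟪Fe n, mk c d η⟫_ℂ = d n := by
  rw [Fe, inner_mk, inner_e_left]; simp

lemma inner_Go (n : ℕ) (a b : l2) (ξ : ℂ) : ⟪Go n, mk a b ξ⟫_ℂ = a n := by
  rw [Go, inner_mk, inner_e_left]; simp

lemma inner_Ge (n : ℕ) (a b : l2) (ξ : ℂ) : ⟪Ge n, mk a b ξ⟫_ℂ =
    b n + (sw n * a (n + 1) - sw n * a n) := by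
  rw [Ge, inner_mk, inner_sub_left, inner_smul_left, inner_smul_left, inner_e_left, inner_e_left,
    inner_e_left]
  simp
  ring

lemma bi_oo (m n : ℕ) : ⟪Go m, Fo n⟫_ℂ = if m = n then 1 else 0 := by
  cases n with
  | zero => rw [Fo, inner_Go, e_apply]; simp only [eq_comm]
  | succ n => rw [Fo, inner_Go, e_apply]; simp only [eq_comm]

lemma bi_oe (m n : ℕ) : ⟪Go m, Fe n⟫_ℂ = 0 := by
  rw [Fe, inner_Go]; rfl

lemma bi_ee (m n : ℕ) : ⟪Ge m, Fe n⟫_ℂ = if m = n then 1 else 0 := by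
  rw [Fe, inner_Ge, e_apply]
  simp only [lp.coeFn_zero, Pi.zero_apply, mul_zero, sub_zero, add_zero]
  simp only [eq_comm]

lemma bi_eo (m n : ℕ) : ⟪Ge m, Fo n⟫_ℂ = 0 := by
  cases n with
  | zero =>
    rw [Fo, inner_Ge]
    simp only [lp.coeFn_smul, Pi.smul_apply, smul_eq_mul, e_apply]
    rcases Nat.eq_zero_or_pos m with h | h
    · subst h; simp
    · rw [if_neg (by omega), if_neg (by omega)]; simp
  | succ n =>
    rw [Fo, inner_Ge]
    simp only [lp.coeFn_smul, lp.coeFn_sub, Pi.sub_apply, Pi.smul_apply, smul_eq_mul, e_apply]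
    by_cases h1 : m = n + 1
    · subst h1
      rw [if_pos rfl, if_neg (by omega), if_neg (by omega)]
      ring
    · by_cases h2 : m = n
      · subst h2
        rw [if_neg (by omega), if_pos rfl, if_pos rfl]
        ring
      · rw [if_neg (by omega), if_neg (by omega), if_neg (by omega)]
        ring

lemma bi (j k : ℕ) : ⟪gg j, ff k⟫_ℂ = if j = k then 1 else 0 := by
  unfold gg ff
  by_cases hj : j % 2 = 0 <;> by_cases hk : k % 2 = 0
  · rw [if_pos hj, if_pos hk, bi_oo]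
    by_cases h : j = k
    · subst h; simp
    · rw [if_neg h, if_neg (by omega)]
  · rw [if_pos hj, if_neg hk, bi_oe, if_neg (by rintro rfl; exact hk hj)]
  · rw [if_neg hj, if_pos hk, bi_eo, if_neg (by rintro rfl; exact hj hk)]
  · rw [if_neg hj, if_neg hk, bi_ee]
    by_cases h : j = k
    · subst h; simp
    · rw [if_neg h, if_neg (by omega)]

lemma inner_zz (a b : l2) (c : ℂ) : ⟪zz, mk a b c⟫_ℂ = c := by
  rw [zz, inner_mk]; simp

lemma zf (k : ℕ) : ⟪zz, ff k⟫_ℂ = 0 := by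
  unfold ff
  split_ifs
  · cases k / 2 with
    | zero => rw [Fo, inner_zz]
    | succ n => rw [Fo, inner_zz]
  · rw [Fe, inner_zz]

lemma zg (k : ℕ) : ⟪gg k, zz⟫_ℂ = 0 := by
  rw [← inner_conj_symm]
  unfold gg
  split_ifs
  · rw [Go, inner_zz, map_zero]
  · rw [Ge, inner_zz, map_zero]

/-- the eigenvalues -/
noncomputable def al : ℕ → ℝ
  | 0 => 1
  | k + 1 => al k / (4 * (1 + ‖gg (k + 1)‖ * ‖ff (k + 1)‖))

lemma al_pos (k : ℕ) : 0 < al k := by
  induction k with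
  | zero => exact one_pos
  | succ k ih => exact div_pos ih (by positivity)

lemma al_dec (k : ℕ) : al (k + 1) * (‖gg (k + 1)‖ * ‖ff (k + 1)‖) ≤ al k / 4 := by
  have h := al_pos k
  set N := ‖gg (k + 1)‖ * ‖ff (k + 1)‖ with hN
  have hN0 : 0 ≤ N := by positivity
  have e : al (k + 1) = al k / (4 * (1 + N)) := rfl
  rw [e, div_mul_eq_mul_div, div_le_div_iff₀ (by positivity) (by norm_num)]
  nlinarith

lemma norm_apply_le (a : l2) (n : ℕ) : ‖a n‖ ≤ ‖a‖ := lp.norm_apply_le_norm (by norm_num) a n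

lemma tendsto_apply (a : l2) : Tendsto (fun n => a n) atTop (𝓝 0) := by
  have h := (lp.memℓp a).summable (by norm_num)
  have h2 := h.tendsto_atTop_zero
  rw [tendsto_zero_iff_norm_tendsto_zero]
  have h3 := h2.sqrt
  rw [Real.sqrt_zero] at h3
  refine h3.congr fun n => ?_
  have e : ‖a n‖ ^ (2 : ℝ≥0∞).toReal = ‖a n‖ ^ 2 := by norm_num
  rw [e, Real.sqrt_sq (norm_nonneg _)]

/-- The strong M-basis property. -/
lemma strong (x y : HH) (hx : ⟪zz, x⟫_ℂ = 0) (_hy : ⟪zz, y⟫_ℂ = 0)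
    (h : ∀ k, ⟪gg k, x⟫_ℂ = 0 ∨ ⟪ff k, y⟫_ℂ = 0) : ⟪x, y⟫_ℂ = 0 := by
  obtain ⟨a, b, ξ, rfl⟩ := exists_mk x
  obtain ⟨c, d, η, rfl⟩ := exists_mk y
  rw [inner_zz] at hx
  subst hx
  have ho : ∀ n, a n = 0 ∨ c n + (sw n * d n - if n = 0 then 0 else sw (n - 1) * d (n - 1)) = 0 := by
    intro n
    have := h (2 * n)
    unfold gg ff at this
    rw [if_pos (by omega), if_pos (by omega), show 2 * n / 2 = n by omega, inner_Go,
      inner_Fo] at this
    exact this
  have he : ∀ n, b n + (sw n * a (n + 1) - sw n * a n) = 0 ∨ d n = 0 := by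
    intro n
    have := h (2 * n + 1)
    unfold gg ff at this
    rw [if_neg (by omega), if_neg (by omega), show (2 * n + 1) / 2 = n by omega, inner_Ge,
      inner_Fe] at this
    exact this
  rw [inner_mk, inner_zero_left, add_zero]
  have hsum : HasSum (fun n => ⟪a n, c n⟫_ℂ + ⟪b n, d n⟫_ℂ) (⟪a, c⟫_ℂ + ⟪b, d⟫_ℂ) :=
    (lp.hasSum_inner a c).add (lp.hasSum_inner b d)
  have hpart : ∀ K, ∑ n ∈ Finset.range (K + 1), (⟪a n, c n⟫_ℂ + ⟪b n, d n⟫_ℂ) =
      -(sw K * (starRingEnd ℂ) (a (K + 1)) * d K) := by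
    have hstep : ∀ n, ⟪a n, c n⟫_ℂ + ⟪b n, d n⟫_ℂ =
        (if n = 0 then 0 else sw (n - 1) * (starRingEnd ℂ) (a n) * d (n - 1)) -
          sw n * (starRingEnd ℂ) (a (n + 1)) * d n := by
      intro n
      have h1 : ⟪a n, c n⟫_ℂ = (starRingEnd ℂ) (a n) * c n := by
        rw [RCLike.inner_apply]; ring
      have h2 : ⟪b n, d n⟫_ℂ = (starRingEnd ℂ) (b n) * d n := by
        rw [RCLike.inner_apply]; ring
      have h3 : (starRingEnd ℂ) (a n) *
          (c n + (sw n * d n - if n = 0 then 0 else sw (n - 1) * d (n - 1))) = 0 := by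
        rcases ho n with h | h
        · rw [h, map_zero, zero_mul]
        · rw [h, mul_zero]
      have h4 : (starRingEnd ℂ) (b n + (sw n * a (n + 1) - sw n * a n)) * d n = 0 := by
        rcases he n with h | h
        · rw [h, map_zero, zero_mul]
        · rw [h, mul_zero]
      rw [map_add, map_sub, map_mul, map_mul, Complex.conj_ofReal] at h4
      rw [h1, h2]
      split_ifs at h3 ⊢ with hn
      · linear_combination h3 + h4
      · linear_combination h3 + h4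
    intro K
    induction K with
    | zero => rw [Finset.sum_range_one, hstep]; simp
    | succ K ih =>
      rw [Finset.sum_range_succ, ih, hstep, if_neg (by omega)]
      simp only [Nat.add_sub_cancel]
      ring
  -- the bound
  have hlim1 : Tendsto (fun K => -(sw K * (starRingEnd ℂ) (a (K + 1)) * d K)) atTop
      (𝓝 (⟪a, c⟫_ℂ + ⟪b, d⟫_ℂ)) := by
    have := (tendsto_add_atTop_iff_nat 1).2 hsum.tendsto_sum_nat
    refine this.congr fun K => hpart K
  by_contra hne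
  -- `d K ≠ 0` for large `K`
  have hd : ∀ᶠ K in atTop, d K ≠ 0 := by
    filter_upwards [hlim1.eventually_ne hne] with K hK hdK
    apply hK
    rw [hdK]; simp
  obtain ⟨K₀, hK₀⟩ := eventually_atTop.1 hd
  have hstep : ∀ K, K₀ ≤ K → ‖a K‖ ≤ ‖a (K + 1)‖ + ‖b‖ / sw K := by
    intro K hK
    have h1 := (he K).resolve_right (hK₀ K hK)
    have hs : (sw K : ℂ) ≠ 0 := by exact_mod_cast (sw_pos K).ne'
    have h2 : a K = a (K + 1) + b K / sw K := by
      field_simp
      linear_combination -h1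
    rw [h2]
    refine (norm_add_le _ _).trans ?_
    have h3 : ‖b K / (sw K : ℂ)‖ ≤ ‖b‖ / sw K := by
      rw [norm_div, Complex.norm_real, Real.norm_of_nonneg (sw_pos K).le]
      exact div_le_div_of_nonneg_right (norm_apply_le b K) (sw_pos K).le
    linarith
  have hiter : ∀ K, K₀ ≤ K → ∀ m : ℕ, ‖a K‖ ≤ ‖a (K + m)‖ + ‖b‖ / sw K * (2 - 2 * (1 / 2) ^ m) := by
    intro K hK m
    induction m with
    | zero => simp
    | succ m ih =>
      have h1 := hstep (K + m) (by omega)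
      have h2 : ‖b‖ / sw (K + m) ≤ ‖b‖ / sw K * (1 / 2) ^ m := by
        have h3 : sw (K + m) = sw K * 8 ^ m := by unfold sw; rw [pow_add]; ring
        rw [h3, ← div_div, div_eq_mul_inv (‖b‖ / sw K)]
        refine mul_le_mul_of_nonneg_left ?_ (div_nonneg (norm_nonneg _) (sw_pos K).le)
        rw [← inv_pow]
        exact pow_le_pow_left₀ (by norm_num) (by norm_num) m
      rw [show K + (m + 1) = K + m + 1 by ring]
      have h4 : ‖b‖ / sw K * (2 - 2 * (1 / 2) ^ (m + 1)) =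
          ‖b‖ / sw K * (2 - 2 * (1 / 2) ^ m) + ‖b‖ / sw K * (1 / 2) ^ m := by
        rw [pow_succ]; ring
      rw [h4]
      linarith
  have hbound : ∀ K, K₀ ≤ K → ‖a K‖ ≤ 2 * (‖b‖ / sw K) := by
    intro K hK
    have h1 : Tendsto (fun m : ℕ => ‖a (K + m)‖ + ‖b‖ / sw K * (2 - 2 * (1 / 2) ^ m)) atTop
        (𝓝 (0 + ‖b‖ / sw K * (2 - 2 * 0))) := by
      refine Tendsto.add ?_ (Tendsto.const_mul _ (Tendsto.const_sub _ (Tendsto.const_mul _ ?_)))
      · have h2 := (tendsto_apply a).norm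
        rw [norm_zero] at h2
        exact h2.comp (tendsto_atTop_mono (fun m => Nat.le_add_left m K) tendsto_id)
      · exact tendsto_pow_atTop_nhds_zero_of_lt_one (by norm_num) (by norm_num)
    have h2 := ge_of_tendsto' h1 (hiter K hK)
    linarith
  have hlim2 : Tendsto (fun K => -(sw K * (starRingEnd ℂ) (a (K + 1)) * d K)) atTop (𝓝 0) := by
    have h1 : Tendsto (fun K => 2 * ‖b‖ * ‖d K‖) atTop (𝓝 (2 * ‖b‖ * 0)) := by
      have h2 := (tendsto_apply d).norm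
      rw [norm_zero] at h2
      exact h2.const_mul _
    rw [mul_zero] at h1
    refine squeeze_zero_norm' ?_ h1
    filter_upwards [eventually_ge_atTop K₀] with K hK
    rw [norm_neg, norm_mul, norm_mul, Complex.norm_real, Real.norm_of_nonneg (sw_pos K).le,
      RCLike.norm_conj]
    refine mul_le_mul_of_nonneg_right ?_ (norm_nonneg _)
    have h2 := hbound (K + 1) (by omega)
    have h3 : sw (K + 1) = 8 * sw K := by unfold sw; rw [pow_succ]; ring
    have hs := sw_pos K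
    rw [h3] at h2
    have h4 : sw K * (2 * (‖b‖ / (8 * sw K))) = ‖b‖ / 4 := by field_simp; ring
    have h5 := mul_le_mul_of_nonneg_left h2 hs.le
    rw [h4] at h5
    have := norm_nonneg b
    linarith
  exact hne (tendsto_nhds_unique hlim1 hlim2)

/-! ### the functional -/

noncomputable def pp : l2 := geo (1 / 2) (by norm_num) (by norm_num)
noncomputable def qq : l2 := geo (1 / 4) (by norm_num) (by norm_num)

lemma pp_apply (n : ℕ) : pp n = (1 / 2 : ℂ) ^ n := by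
  rw [pp, geo_apply]; norm_num
lemma qq_apply (n : ℕ) : qq n = (1 / 4 : ℂ) ^ n := by
  rw [qq, geo_apply]; norm_num

noncomputable def uu : Fin 3 → HH := ![mk (e 0) 0 0, mk pp 0 0, mk qq 0 0]
noncomputable def vv : Fin 3 → HH :=
  ![mk (e 0) 0 0, mk 0 ((-(3 / 4) : ℂ) • qq) 0, mk 0 ((1 / 2 : ℂ) • pp) 0]

lemma zu (i : Fin 3) : ⟪zz, uu i⟫_ℂ = 0 := by
  fin_cases i
  · exact inner_zz _ _ _
  · exact inner_zz _ _ _
  · exact inner_zz _ _ _

lemma h1 : ∑ i, ⟪uu i, vv i⟫_ℂ = 1 := by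
  rw [Fin.sum_univ_three]
  have e0 : ⟪uu 0, vv 0⟫_ℂ = 1 := by
    show ⟪mk (e 0) 0 0, mk (e 0) 0 0⟫_ℂ = 1
    rw [inner_mk, inner_ee, inner_zero_left, inner_zero_left, if_pos rfl, add_zero, add_zero]
  have e1 : ⟪uu 1, vv 1⟫_ℂ = 0 := by
    show ⟪mk pp 0 0, mk 0 ((-(3 / 4) : ℂ) • qq) 0⟫_ℂ = 0
    rw [inner_mk, inner_zero_left, inner_zero_left, inner_zero_right, add_zero, add_zero]
  have e2 : ⟪uu 2, vv 2⟫_ℂ = 0 := by
    show ⟪mk qq 0 0, mk 0 ((1 / 2 : ℂ) • pp) 0⟫_ℂ = 0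
    rw [inner_mk, inner_zero_left, inner_zero_left, inner_zero_right, add_zero, add_zero]
  rw [e0, e1, e2, add_zero, add_zero]

lemma h0 (k : ℕ) : ∑ i, ⟪uu i, gg k⟫_ℂ * ⟪ff k, vv i⟫_ℂ = 0 := by
  rw [Fin.sum_univ_three]
  have hc : ∀ x y : HH, ⟪x, y⟫_ℂ = (starRingEnd ℂ) ⟪y, x⟫_ℂ := fun x y =>
    (inner_conj_symm _ _).symm
  rw [hc (uu 0), hc (uu 1), hc (uu 2)]
  simp only [uu, vv, Matrix.cons_val_zero, Matrix.cons_val_one, Matrix.cons_val]
  unfold gg ff
  by_cases hk : k % 2 = 0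
  · rw [if_pos hk, if_pos hk]
    generalize k / 2 = n
    simp only [inner_Go, inner_Fo, pp_apply, qq_apply, e_apply, lp.coeFn_smul, Pi.smul_apply,
      smul_eq_mul, lp.coeFn_zero, Pi.zero_apply, mul_zero]
    cases n with
    | zero => simp [sw]; norm_num
    | succ n =>
      have h8 : ∀ m : ℕ, (8 : ℂ) ^ m = 2 ^ m * 4 ^ m := fun m => by rw [← mul_pow]; norm_num
      have h2 : ∀ m : ℕ, (1 / 2 : ℂ) ^ m = (2 ^ m)⁻¹ := fun m => by rw [one_div, inv_pow]
      have h4 : ∀ m : ℕ, (1 / 4 : ℂ) ^ m = (4 ^ m)⁻¹ := fun m => by rw [one_div, inv_pow]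
      have p2 : (2 : ℂ) ^ n ≠ 0 := pow_ne_zero _ (by norm_num)
      have p4 : (4 : ℂ) ^ n ≠ 0 := pow_ne_zero _ (by norm_num)
      simp only [if_neg (show ¬ (n + 1 = 0) by omega), Nat.add_sub_cancel, sw, h2, h4, map_inv₀,
        zero_add, pow_succ, map_mul, map_pow, map_ofNat]
      push_cast
      simp only [h8]
      field_simp
      ring
  · rw [if_neg hk, if_neg hk]
    generalize k / 2 = n
    simp only [inner_Ge, inner_Fe, pp_apply, qq_apply, e_apply, lp.coeFn_smul, Pi.smul_apply,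
      smul_eq_mul, lp.coeFn_zero, Pi.zero_apply, mul_zero]
    have h8 : ∀ m : ℕ, (8 : ℂ) ^ m = 2 ^ m * 4 ^ m := fun m => by rw [← mul_pow]; norm_num
    have h2 : ∀ m : ℕ, (1 / 2 : ℂ) ^ m = (2 ^ m)⁻¹ := fun m => by rw [one_div, inv_pow]
    have h4 : ∀ m : ℕ, (1 / 4 : ℂ) ^ m = (4 ^ m)⁻¹ := fun m => by rw [one_div, inv_pow]
    have p2 : (2 : ℂ) ^ n ≠ 0 := pow_ne_zero _ (by norm_num)
    have p4 : (4 : ℂ) ^ n ≠ 0 := pow_ne_zero _ (by norm_num)
    simp only [sw, h2, h4, zero_add, map_inv₀, map_pow,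
      map_ofNat, pow_succ, map_sub, map_mul, Complex.conj_ofReal]
    push_cast
    simp only [h8]
    field_simp
    ring

end Pool.Agent.K6.H32.Conc
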