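import Mathlib

set_option autoImplicit false
open scoped InnerProductSpace
open Filter Topology

namespace Pool.Agent.K6.H32.Synth

section general

variable {H : Type} [NormedAddCommGroup H] [InnerProductSpace ℂ H]

/-- the rank one operator `x ↦ ⟪g, x⟫ f` -/
noncomputable def rk (g f : H) : H →L[ℂ] H := (innerSL ℂ g).smulRight f

lemma rk_apply (g f x : H) : rk g f x = ⟪g, x⟫_ℂ • f := rfl

lemma norm_rk (g f : H) : ‖rk g f‖ = ‖g‖ * ‖f‖ := by
  unfold rk
  rw [ContinuousLinearMap.norm_smulRight_apply, innerSL_apply_norm]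

/-- A biorthogonal system with fast decreasing eigenvalues, and a unit vector orthogonal to it. -/
structure Sys (f g : ℕ → H) (z : H) (α : ℕ → ℝ) : Prop where
  bi : ∀ j k, ⟪g j, f k⟫_ℂ = if j = k then 1 else 0
  zz : ⟪z, z⟫_ℂ = 1
  zf : ∀ k, ⟪z, f k⟫_ℂ = 0
  zg : ∀ k, ⟪g k, z⟫_ℂ = 0
  pos : ∀ k, 0 < α k
  dec : ∀ k, α (k + 1) * (‖g (k + 1)‖ * ‖f (k + 1)‖) ≤ α k / 4

/-- the tail of the operator -/
noncomputable def Aj (f g : ℕ → H) (α : ℕ → ℝ) (j : ℕ) : H →L[ℂ] H :=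
  ∑' i : ℕ, ((α (i + j) : ℂ) • rk (g (i + j)) (f (i + j)))

variable {f g : ℕ → H} {z : H} {α : ℕ → ℝ}

lemma Sys.one_le (S : Sys f g z α) (k : ℕ) : 1 ≤ ‖g k‖ * ‖f k‖ := by
  have h := norm_inner_le_norm (𝕜 := ℂ) (g k) (f k)
  rw [S.bi, if_pos rfl, norm_one] at h
  exact h

lemma Sys.quarter (S : Sys f g z α) (k : ℕ) : α (k + 1) ≤ α k / 4 :=
  le_trans (le_mul_of_one_le_right (S.pos _).le (S.one_le _)) (S.dec k)

lemma Sys.quarter_pow (S : Sys f g z α) (k i : ℕ) : α (i + k) ≤ α k * (1 / 4) ^ i := by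
  induction i with
  | zero => simp
  | succ i ih =>
    have h := S.quarter (i + k)
    have e : i + 1 + k = i + k + 1 := by ring
    rw [e, pow_succ]
    linarith

lemma Sys.norm_term (S : Sys f g z α) (k : ℕ) :
    ‖((α k : ℂ) • rk (g k) (f k))‖ = α k * (‖g k‖ * ‖f k‖) := by
  rw [norm_smul, norm_rk, Complex.norm_real, Real.norm_of_nonneg (S.pos k).le]

lemma Sys.norm_term_le (S : Sys f g z α) (k i : ℕ) :
    ‖((α (i + (k + 1)) : ℂ) • rk (g (i + (k + 1))) (f (i + (k + 1))))‖ ≤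
      α k / 4 * (1 / 4) ^ i := by
  rw [S.norm_term]
  have h1 := S.dec (i + k)
  have h2 := S.quarter_pow k i
  have e : i + (k + 1) = i + k + 1 := by ring
  rw [e]
  linarith

variable [CompleteSpace H]

lemma Sys.summable_succ (S : Sys f g z α) (k : ℕ) :
    Summable fun i : ℕ => ((α (i + (k + 1)) : ℂ) • rk (g (i + (k + 1))) (f (i + (k + 1)))) := by
  refine Summable.of_norm_bounded (g := fun i => α k / 4 * (1 / 4 : ℝ) ^ i) ?_
    (S.norm_term_le k)
  exact (summable_geometric_of_lt_one (by norm_num) (by norm_num)).mul_left _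

lemma Sys.summable (S : Sys f g z α) (k : ℕ) :
    Summable fun i : ℕ => ((α (i + k) : ℂ) • rk (g (i + k)) (f (i + k))) := by
  rw [← summable_nat_add_iff 1]
  refine (S.summable_succ k).congr fun i => ?_
  rw [show i + 1 + k = i + (k + 1) by ring]

lemma Sys.norm_Aj (S : Sys f g z α) (k : ℕ) : ‖Aj f g α (k + 1)‖ < α k := by
  have h1 : HasSum (fun i : ℕ => α k / 4 * (1 / 4 : ℝ) ^ i) (α k / 4 * (1 - 1 / 4)⁻¹) :=
    (hasSum_geometric_of_lt_one (by norm_num) (by norm_num)).mul_left _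
  have h2 := tsum_of_norm_bounded h1 (S.norm_term_le k)
  have h3 := S.pos k
  unfold Aj
  refine h2.trans_lt ?_
  norm_num
  linarith

lemma Sys.Aj_split (S : Sys f g z α) (j : ℕ) :
    Aj f g α j = (α j : ℂ) • rk (g j) (f j) + Aj f g α (j + 1) := by
  unfold Aj
  rw [(S.summable j).tsum_eq_zero_add]
  congr 1
  · simp
  · refine tsum_congr fun i => ?_
    rw [show i + 1 + j = i + (j + 1) by ring]

lemma Sys.hasSum_apply (S : Sys f g z α) (j : ℕ) (x : H) :
    HasSum (fun i : ℕ => ((α (i + j) : ℂ) * ⟪g (i + j), x⟫_ℂ) • f (i + j)) (Aj f g α j x) := by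
  have h := (S.summable j).hasSum
  have h2 := (ContinuousLinearMap.apply ℂ H x).hasSum h
  have e : (fun i : ℕ => ((α (i + j) : ℂ) * ⟪g (i + j), x⟫_ℂ) • f (i + j)) =
      fun i => (ContinuousLinearMap.apply ℂ H x)
        ((α (i + j) : ℂ) • rk (g (i + j)) (f (i + j))) := by
    funext i
    simp only [ContinuousLinearMap.apply_apply, smul_apply, rk_apply, smul_smul]
  rw [e]
  exact h2

/-- `A_j` kills `z` and the vectors `f k`, `k < j`, and multiplies the other `f k` by `α k` -/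
lemma Sys.Aj_z (S : Sys f g z α) (j : ℕ) : Aj f g α j z = 0 := by
  have h := S.hasSum_apply j z
  simp only [S.zg, mul_zero, zero_smul] at h
  exact h.unique hasSum_zero

lemma Sys.Aj_f (S : Sys f g z α) (j : ℕ) : Aj f g α j (f j) = (α j : ℂ) • f j := by
  have h := S.hasSum_apply j (f j)
  have h2 := hasSum_single (f := fun i : ℕ => ((α (i + j) : ℂ) * ⟪g (i + j), f j⟫_ℂ) • f (i + j)) 0
    (fun i hi => by
      rw [S.bi, if_neg (by omega)]; simp)
  rw [h.unique h2, S.bi]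
  simp

lemma Sys.A0_f (S : Sys f g z α) (k : ℕ) : Aj f g α 0 (f k) = (α k : ℂ) • f k := by
  have h := S.hasSum_apply 0 (f k)
  have h2 := hasSum_single (f := fun i : ℕ => ((α (i + 0) : ℂ) * ⟪g (i + 0), f k⟫_ℂ) • f (i + 0)) k
    (fun i hi => by
      rw [S.bi, if_neg (by simpa using hi)]; simp)
  rw [h.unique h2, S.bi]
  simp

lemma Sys.inner_Aj (S : Sys f g z α) (j : ℕ) (x : H) : ⟪g j, Aj f g α (j + 1) x⟫_ℂ = 0 := by
  have h := S.hasSum_apply (j + 1) x
  have h2 := (innerSL ℂ (g j)).hasSum h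
  have e : (fun i : ℕ => innerSL ℂ (g j)
      (((α (i + (j + 1)) : ℂ) * ⟪g (i + (j + 1)), x⟫_ℂ) • f (i + (j + 1)))) = fun _ => 0 := by
    funext i
    rw [map_smul, innerSL_apply_apply, S.bi, if_neg (by omega), smul_zero]
  rw [e] at h2
  exact h2.unique hasSum_zero

/-- powers -/
lemma Sys.pow_Aj (S : Sys f g z α) (j : ℕ) (x : H) (m : ℕ) :
    ((Aj f g α j) ^ (m + 1)) x =
      ((α j : ℂ) ^ (m + 1) * ⟪g j, x⟫_ℂ) • f j + ((Aj f g α (j + 1)) ^ (m + 1)) x := by
  induction m with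
  | zero =>
    rw [zero_add, pow_one, pow_one, pow_one]
    conv_lhs => rw [S.Aj_split j]
    rw [add_apply, smul_apply, rk_apply, smul_smul]
  | succ m ih =>
    have e1 : ((Aj f g α j) ^ (m + 1 + 1)) x = Aj f g α j (((Aj f g α j) ^ (m + 1)) x) := by
      rw [pow_succ' (Aj f g α j) (m + 1)]; rfl
    have e2 : ((Aj f g α (j + 1)) ^ (m + 1 + 1)) x =
        Aj f g α (j + 1) (((Aj f g α (j + 1)) ^ (m + 1)) x) := by
      rw [pow_succ' (Aj f g α (j + 1)) (m + 1)]; rfl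
    have e3 : ((Aj f g α (j + 1)) ^ (m + 1)) x =
        Aj f g α (j + 1) (((Aj f g α (j + 1)) ^ m) x) := by
      rw [pow_succ' (Aj f g α (j + 1)) m]; rfl
    rw [e1, ih, map_add, map_smul, S.Aj_f, e2]
    congr 1
    · rw [smul_smul]
      congr 1
      ring
    · conv_lhs => rw [S.Aj_split j]
      rw [add_apply, smul_apply, rk_apply]
      conv_lhs => rw [e3, S.inner_Aj]
      rw [zero_smul, smul_zero, zero_add, ← e3]

/-- a closed subspace invariant under `A` is invariant under the rank one projections -/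
lemma Sys.proj_mem (S : Sys f g z α) (M : Submodule ℂ H) (hM : IsClosed (M : Set H))
    (hA : ∀ x ∈ M, Aj f g α 0 x ∈ M) (j : ℕ) :
    (∀ x ∈ M, Aj f g α j x ∈ M) ∧ ∀ x ∈ M, ⟪g j, x⟫_ℂ • f j ∈ M := by
  have key : ∀ j, (∀ x ∈ M, Aj f g α j x ∈ M) → ∀ x ∈ M, ⟪g j, x⟫_ℂ • f j ∈ M := by
    intro j hj x hx
    have hpow : ∀ m, ((Aj f g α j) ^ m) x ∈ M := by
      intro m
      induction m with
      | zero => exact hx
      | succ m ih =>
        have e1 : ((Aj f g α j) ^ (m + 1)) x = Aj f g α j (((Aj f g α j) ^ m) x) := by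
          rw [pow_succ' (Aj f g α j) m]; rfl
        rw [e1]; exact hj _ ih
    have hαj : (α j : ℂ) ≠ 0 := by exact_mod_cast (S.pos j).ne'
    have hlim : Tendsto (fun m : ℕ => ((α j : ℂ) ^ (m + 1))⁻¹ • ((Aj f g α j) ^ (m + 1)) x) atTop
        (𝓝 (⟪g j, x⟫_ℂ • f j)) := by
      have h0 : Tendsto (fun m : ℕ => ((α j : ℂ) ^ (m + 1))⁻¹ •
          ((Aj f g α (j + 1)) ^ (m + 1)) x) atTop (𝓝 0) := by
        set q : ℝ := ‖Aj f g α (j + 1)‖ / α j with hq
        have hq1 : q < 1 := (div_lt_one (S.pos j)).2 (S.norm_Aj j)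
        have hq0 : 0 ≤ q := div_nonneg (norm_nonneg _) (S.pos j).le
        have h1 : Tendsto (fun m : ℕ => q ^ (m + 1) * ‖x‖) atTop (𝓝 (0 * ‖x‖)) :=
          ((tendsto_pow_atTop_nhds_zero_of_lt_one hq0 hq1).comp
            (tendsto_add_atTop_nat 1)).mul_const _
        rw [zero_mul] at h1
        refine squeeze_zero_norm (fun m => ?_) h1
        rw [norm_smul, norm_inv, norm_pow, Complex.norm_real, Real.norm_of_nonneg (S.pos j).le]
        have h2 : ‖((Aj f g α (j + 1)) ^ (m + 1)) x‖ ≤ ‖Aj f g α (j + 1)‖ ^ (m + 1) * ‖x‖ :=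
          (((Aj f g α (j + 1)) ^ (m + 1)).le_opNorm x).trans
            (mul_le_mul_of_nonneg_right (norm_pow_le' _ (Nat.succ_pos m)) (norm_nonneg _))
        calc (α j ^ (m + 1))⁻¹ * ‖((Aj f g α (j + 1)) ^ (m + 1)) x‖
            ≤ (α j ^ (m + 1))⁻¹ * (‖Aj f g α (j + 1)‖ ^ (m + 1) * ‖x‖) :=
              mul_le_mul_of_nonneg_left h2 (inv_nonneg.2 (pow_nonneg (S.pos j).le _))
          _ = q ^ (m + 1) * ‖x‖ := by
              rw [hq, div_pow, div_eq_mul_inv]; ring
      have h1 := h0.const_add (⟪g j, x⟫_ℂ • f j)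
      rw [add_zero] at h1
      refine h1.congr fun m => ?_
      rw [S.pow_Aj j x m, smul_add, smul_smul]
      congr 2
      field_simp
    exact hM.mem_of_tendsto hlim (Eventually.of_forall fun m => M.smul_mem _ (hpow (m + 1)))
  have all : ∀ j, ∀ x ∈ M, Aj f g α j x ∈ M := by
    intro j
    induction j with
    | zero => exact hA
    | succ j ih =>
      intro x hx
      have h1 : Aj f g α (j + 1) x = Aj f g α j x - (α j : ℂ) • (⟪g j, x⟫_ℂ • f j) := by
        conv_rhs => rw [S.Aj_split j]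
        rw [add_apply, smul_apply, rk_apply]
        abel
      rw [h1]
      exact M.sub_mem (ih x hx) (M.smul_mem _ (key j ih x hx))
  exact ⟨all j, key j (all j)⟩

/-- The strong M-basis property. -/
def Strong (f g : ℕ → H) (z : H) : Prop :=
  ∀ x y : H, ⟪z, x⟫_ℂ = 0 → ⟪z, y⟫_ℂ = 0 → (∀ k, ⟪g k, x⟫_ℂ = 0 ∨ ⟪f k, y⟫_ℂ = 0) →
    ⟪x, y⟫_ℂ = 0

/-- the structure of the invariant subspaces -/
lemma Sys.mem_closure (S : Sys f g z α) (hS : Strong f g z) (M : Submodule ℂ H)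
    (hM : IsClosed (M : Set H)) (hA : ∀ x ∈ M, Aj f g α 0 x ∈ M) (x : H) (hx : x ∈ M) :
    x - ⟪z, x⟫_ℂ • z ∈ (Submodule.span ℂ {y : H | y ∈ M ∧ ∃ k, y = f k}).topologicalClosure := by
  set N := Submodule.span ℂ {y : H | y ∈ M ∧ ∃ k, y = f k} with hN
  rw [← Submodule.orthogonal_orthogonal_eq_closure, Submodule.mem_orthogonal]
  intro y hy
  rw [Submodule.mem_orthogonal] at hy
  have hzx : ⟪z, x - ⟪z, x⟫_ℂ • z⟫_ℂ = 0 := by
    rw [inner_sub_right, inner_smul_right, S.zz, mul_one, sub_self]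
  have hzy : ⟪z, y - ⟪z, y⟫_ℂ • z⟫_ℂ = 0 := by
    rw [inner_sub_right, inner_smul_right, S.zz, mul_one, sub_self]
  have hfz : ∀ k, ⟪f k, z⟫_ℂ = 0 := fun k => by
    rw [← inner_conj_symm, S.zf, map_zero]
  have hxz : ⟪x - ⟪z, x⟫_ℂ • z, z⟫_ℂ = 0 := by
    rw [← inner_conj_symm, hzx, map_zero]
  have hmain := hS _ _ hzx hzy fun k => by
    by_cases hk : f k ∈ M
    · right
      rw [inner_sub_right, inner_smul_right, hfz, mul_zero, sub_zero]
      exact hy _ (Submodule.subset_span ⟨hk, k, rfl⟩)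
    · left
      rw [inner_sub_right, inner_smul_right, S.zg, mul_zero, sub_zero]
      by_contra hne
      apply hk
      have h1 := ((S.proj_mem M hM hA k).2 x hx)
      have h2 := M.smul_mem (⟪g k, x⟫_ℂ)⁻¹ h1
      rwa [smul_smul, inv_mul_cancel₀ hne, one_smul] at h2
  rw [inner_sub_right, inner_smul_right, hxz, mul_zero, sub_zero] at hmain
  rw [← inner_conj_symm, hmain, map_zero]

lemma Sys.closure_le (M : Submodule ℂ H) (hM : IsClosed (M : Set H)) :
    (Submodule.span ℂ {y : H | y ∈ M ∧ ∃ k, y = f k}).topologicalClosure ≤ M :=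
  Submodule.topologicalClosure_minimal _ (Submodule.span_le.2 fun y hy => hy.1) hM

lemma Sys.z_mem (S : Sys f g z α) (hS : Strong f g z) (M : Submodule ℂ H)
    (hM : IsClosed (M : Set H)) (hA : ∀ x ∈ M, Aj f g α 0 x ∈ M) (x : H) (hx : x ∈ M) :
    ⟪z, x⟫_ℂ • z ∈ M := by
  have h1 := Sys.closure_le M hM (S.mem_closure hS M hM hA x hx)
  have h2 := M.sub_mem hx h1
  rwa [sub_sub_cancel] at h2

/-- every closed invariant subspace is spanned by eigenvectors -/
lemma Sys.synthesis (S : Sys f g z α) (hS : Strong f g z) (M : Submodule ℂ H)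
    (hM : IsClosed (M : Set H)) (hA : ∀ x ∈ M, Aj f g α 0 x ∈ M) :
    M = (Submodule.span ℂ {x : H | x ∈ M ∧ ∃ c : ℂ, Aj f g α 0 x = c • x}).topologicalClosure := by
  apply le_antisymm
  · intro x hx
    have h1 := S.mem_closure hS M hM hA x hx
    have h2 := S.z_mem hS M hM hA x hx
    have h3 : x = (x - ⟪z, x⟫_ℂ • z) + ⟪z, x⟫_ℂ • z := by abel
    rw [h3]
    refine Submodule.add_mem _ ?_ ?_
    · refine Submodule.topologicalClosure_mono (Submodule.span_mono ?_) h1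
      rintro _ ⟨hy, k, rfl⟩
      exact ⟨hy, _, S.A0_f k⟩
    · refine Submodule.le_topologicalClosure _ (Submodule.subset_span ⟨h2, 0, ?_⟩)
      rw [map_smul, S.Aj_z, smul_zero, zero_smul]
  · exact Submodule.topologicalClosure_minimal _ (Submodule.span_le.2 fun y hy => hy.1) hM

/-- the failure of reflexivity -/
theorem Sys.not_reflexive (S : Sys f g z α) (hS : Strong f g z) (u w : Fin 3 → H)
    (hzu : ∀ i, ⟪z, u i⟫_ℂ = 0) (h0 : ∀ k, ∑ i, ⟪u i, g k⟫_ℂ * ⟪f k, w i⟫_ℂ = 0)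
    (h1 : ∑ i, ⟪u i, w i⟫_ℂ = 1) :
    ∃ A B : H →L[ℂ] H,
      (∀ M : Submodule ℂ H, IsClosed (M : Set H) → (∀ x ∈ M, A x ∈ M) →
        M = (Submodule.span ℂ {x : H | x ∈ M ∧ ∃ c : ℂ, A x = c • x}).topologicalClosure) ∧
      (∀ M : Submodule ℂ H, IsClosed (M : Set H) → (∀ x ∈ M, A x ∈ M) → ∀ x ∈ M, B x ∈ M) ∧
      ∃ (s : Finset (H × H)) (ε : ℝ), 0 < ε ∧ ∀ p : Polynomial ℂ, ∃ v ∈ s,
        ε ≤ ‖⟪(B - Polynomial.aeval A p) v.1, v.2⟫_ℂ‖ := by
  classical
  set A := Aj f g α 0 with hAdef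
  set B : H →L[ℂ] H := ContinuousLinearMap.id ℂ H - rk z z with hB
  have hBx : ∀ x, B x = x - ⟪z, x⟫_ℂ • z := fun x => rfl
  refine ⟨A, B, fun M hM hA => S.synthesis hS M hM hA, fun M hM hA x hx => ?_, ?_⟩
  · rw [hBx]
    exact M.sub_mem hx (S.z_mem hS M hM hA x hx)
  -- the functional
  let L : (H →L[ℂ] H) → ℂ := fun C => ∑ i, ⟪C (u i), w i⟫_ℂ - ⟪C z, z⟫_ℂ
  have hLadd : ∀ C D, L (C + D) = L C + L D := by
    intro C D
    simp only [L, add_apply, inner_add_left, Finset.sum_add_distrib]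
    ring
  have hLsub : ∀ C D, L (C - D) = L C - L D := by
    intro C D
    simp only [L, sub_apply, inner_sub_left, Finset.sum_sub_distrib]
    ring
  have hLsmul : ∀ (c : ℂ) C, L (c • C) = (starRingEnd ℂ) c * L C := by
    intro c C
    simp only [L, smul_apply, inner_smul_left, ← Finset.mul_sum]
    ring
  have hsum : ∀ (m : ℕ) (x : H),
      HasSum (fun k : ℕ => ((α k : ℂ) ^ (m + 1) * ⟪g k, x⟫_ℂ) • f k) ((A ^ (m + 1)) x) := by
    intro m x
    induction m with
    | zero =>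
      have := S.hasSum_apply 0 x
      simpa using this
    | succ m ih =>
      have e1 : (A ^ (m + 1 + 1)) x = A ((A ^ (m + 1)) x) := by
        rw [pow_succ' A (m + 1)]; rfl
      rw [e1]
      have h2 := A.hasSum ih
      convert h2 using 1
      funext k
      rw [map_smul, hAdef, S.A0_f, smul_smul]
      congr 1
      ring
  have hLpow : ∀ m : ℕ, L (A ^ m) = 0 := by
    intro m
    rcases m with _ | m
    · simp only [L, pow_zero, one_apply_eq_self, h1, S.zz, sub_self]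
    · have hz : (A ^ (m + 1)) z = 0 := by
        rw [pow_succ]
        show (A ^ m) (A z) = 0
        rw [hAdef, S.Aj_z, map_zero]
      have h2 : HasSum (fun k : ℕ => ∑ i, ⟪((α k : ℂ) ^ (m + 1) * ⟪g k, u i⟫_ℂ) • f k, w i⟫_ℂ)
          (∑ i, ⟪(A ^ (m + 1)) (u i), w i⟫_ℂ) := by
        refine hasSum_sum fun i _ => ?_
        have h3 := (innerSL ℂ (w i)).hasSum (hsum m (u i))
        have h4 := h3.star
        have e : ∀ v : H, star (innerSL ℂ (w i) v) = ⟪v, w i⟫_ℂ := by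
          intro v
          rw [innerSL_apply_apply]
          exact inner_conj_symm _ _
        simp only [e] at h4
        exact h4
      have h3 : (fun k : ℕ => ∑ i, ⟪((α k : ℂ) ^ (m + 1) * ⟪g k, u i⟫_ℂ) • f k, w i⟫_ℂ) =
          fun _ => 0 := by
        funext k
        have : ∀ i, ⟪((α k : ℂ) ^ (m + 1) * ⟪g k, u i⟫_ℂ) • f k, w i⟫_ℂ =
            (α k : ℂ) ^ (m + 1) * (⟪u i, g k⟫_ℂ * ⟪f k, w i⟫_ℂ) := by
          intro i
          rw [inner_smul_left, map_mul, inner_conj_symm, map_pow, Complex.conj_ofReal]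
          ring
        simp only [this, ← Finset.mul_sum, h0, mul_zero]
      rw [h3] at h2
      simp only [L, hz, inner_zero_left, sub_zero]
      exact h2.unique hasSum_zero
  have hLpoly : ∀ p : Polynomial ℂ, L (Polynomial.aeval A p) = 0 := by
    intro p
    induction p using Polynomial.induction_on' with
    | add p q hp hq => rw [map_add, hLadd, hp, hq, add_zero]
    | monomial n a =>
      rw [Polynomial.aeval_monomial, ← Algebra.smul_def, hLsmul, hLpow, mul_zero]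
  have hLB : L B = 1 := by
    simp only [L, hBx, hzu, zero_smul, sub_zero, h1, S.zz, one_smul, sub_self, inner_zero_left]
  refine ⟨Finset.image (fun i => (u i, w i)) Finset.univ ∪ {(z, z)}, 1 / 4, by norm_num,
    fun p => ?_⟩
  by_contra hcon
  push Not at hcon
  have h2 : L (B - Polynomial.aeval A p) = 1 := by rw [hLsub, hLB, hLpoly, sub_zero]
  have h3 : ‖L (B - Polynomial.aeval A p)‖ < 1 := by
    have h4 : ∀ i, ‖⟪(B - Polynomial.aeval A p) (u i), w i⟫_ℂ‖ < 1 / 4 := fun i =>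
      hcon (u i, w i) (Finset.mem_union_left _ (Finset.mem_image_of_mem _ (Finset.mem_univ i)))
    have h5 : ‖⟪(B - Polynomial.aeval A p) z, z⟫_ℂ‖ < 1 / 4 :=
      hcon (z, z) (Finset.mem_union_right _ (Finset.mem_singleton_self _))
    calc ‖L (B - Polynomial.aeval A p)‖
        ≤ ‖∑ i, ⟪(B - Polynomial.aeval A p) (u i), w i⟫_ℂ‖ +
            ‖⟪(B - Polynomial.aeval A p) z, z⟫_ℂ‖ := norm_sub_le _ _
      _ ≤ ∑ i, ‖⟪(B - Polynomial.aeval A p) (u i), w i⟫_ℂ‖ +
            ‖⟪(B - Polynomial.aeval A p) z, z⟫_ℂ‖ := by gcongr; exact norm_sum_le _ _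
      _ < 1 := by
          rw [Fin.sum_univ_three]
          have := h4 0
          have := h4 1
          have := h4 2
          linarith
  rw [h2, norm_one] at h3
  exact lt_irrefl _ h3

end general
end Pool.Agent.K6.H32.Synth
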