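import Mathlib
import Pool.Agent.N759.CFr.SymFinal
import Pool.Agent.N759.CFr.Tensor

/-! # Bihomogeneous forms: majorants of the coefficients and integral forms -/

set_option autoImplicit false

open Polynomial Matrix Kronecker

namespace Pool.Agent.K6.H32.TP

open Pool.Agent.N759.CFr

/-- majorants of polynomials in two variables -/
def Maj (p q : ℝ[X][X]) : Prop := ∀ i j, |(p.coeff j).coeff i| ≤ (q.coeff j).coeff i

lemma Maj.one : Maj 1 1 := by
  intro i j
  rw [coeff_one]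
  split_ifs with h
  · rw [coeff_one]
    split_ifs <;> simp
  · simp

lemma Maj.mul {p q p' q' : ℝ[X][X]} (h : Maj p q) (h' : Maj p' q') : Maj (p * p') (q * q') := by
  intro i j
  rw [coeff_mul, coeff_mul, finsetSum_coeff, finsetSum_coeff]
  refine (Finset.abs_sum_le_sum_abs _ _).trans (Finset.sum_le_sum fun a _ => ?_)
  rw [coeff_mul, coeff_mul]
  refine (Finset.abs_sum_le_sum_abs _ _).trans (Finset.sum_le_sum fun c _ => ?_)
  rw [abs_mul]
  exact mul_le_mul (h _ _) (h' _ _) (abs_nonneg _) ((abs_nonneg _).trans (h _ _))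

lemma Maj.pow {p q : ℝ[X][X]} (h : Maj p q) (n : ℕ) : Maj (p ^ n) (q ^ n) := by
  induction n with
  | zero => rw [pow_zero, pow_zero]; exact Maj.one
  | succ n ih => rw [pow_succ, pow_succ]; exact ih.mul h

/-- the coefficients of a product of polynomials in the two variables -/
lemma coeff_CM (A q : ℝ[X]) (i j : ℕ) :
    (((C A : ℝ[X][X]) * q.map C).coeff j).coeff i = A.coeff i * q.coeff j := by
  rw [coeff_C_mul, coeff_map, coeff_mul_C]

/-- the standard majorant -/
noncomputable def Std (c σ τ : ℝ) (k l : ℕ) : ℝ[X][X] :=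
  C (C c * (1 + C σ * X) ^ k) * ((1 + C τ * X) ^ l : ℝ[X]).map C

lemma coeff_lin_pow (σ : ℝ) (k i : ℕ) :
    ((1 + C σ * X : ℝ[X]) ^ k).coeff i = (k.choose i : ℝ) * σ ^ i := by
  have h : (1 + C σ * X : ℝ[X]) ^ k = ((1 + X : ℝ[X]) ^ k).comp (C σ * X) := by
    simp
  rw [h, comp_C_mul_X_coeff, coeff_one_add_X_pow]

lemma coeff_Std (c σ τ : ℝ) (k l i j : ℕ) :
    ((Std c σ τ k l).coeff j).coeff i
      = c * ((k.choose i : ℝ) * σ ^ i) * ((l.choose j : ℝ) * τ ^ j) := by
  rw [Std, coeff_CM, coeff_C_mul, coeff_lin_pow, coeff_lin_pow]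

lemma Std_mul (c c' σ τ : ℝ) (k l k' l' : ℕ) :
    Std c σ τ k l * Std c' σ τ k' l' = Std (c * c') σ τ (k + k') (l + l') := by
  unfold Std
  rw [pow_add, pow_add, Polynomial.map_mul]
  simp only [C_mul]
  ring

lemma Std_pow (c σ τ : ℝ) (k l n : ℕ) :
    Std c σ τ k l ^ n = Std (c ^ n) σ τ (n * k) (n * l) := by
  induction n with
  | zero => simp [Std]
  | succ n ih => rw [pow_succ, ih, Std_mul, pow_succ, Nat.succ_mul, Nat.succ_mul]

/-- the bilinear polynomial with coefficients `a`; the index `0` belongs to the power one -/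
noncomputable def Bil (a : Fin 2 → Fin 2 → ℝ) : ℝ[X][X] :=
  C (C (a 0 0) * X + C (a 1 0)) * X + C (C (a 0 1) * X + C (a 1 1))

/-- the linear polynomials -/
noncomputable def Lin (w : Fin 2 → ℝ) : ℝ[X] := C (w 0) * X + C (w 1)

lemma Lin_coeff (w : Fin 2 → ℝ) (i : ℕ) :
    (Lin w).coeff i = if i = 1 then w 0 else if i = 0 then w 1 else 0 := by
  unfold Lin
  rcases i with _ | _ | i
  · simp
  · simp [coeff_C]
  · simp [coeff_C, coeff_X]

lemma Bil_coeff (a : Fin 2 → Fin 2 → ℝ) (j : ℕ) :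
    (Bil a).coeff j = if j = 1 then Lin (fun r => a r 0) else
      if j = 0 then Lin (fun r => a r 1) else 0 := by
  unfold Bil Lin
  rcases j with _ | _ | j
  · simp
  · simp [coeff_C]
  · simp [coeff_C, coeff_X]

lemma Maj_Bil {a : Fin 2 → Fin 2 → ℝ} {c σ τ : ℝ} (h11 : |a 1 1| ≤ c) (h01 : |a 0 1| ≤ c * σ)
    (h10 : |a 1 0| ≤ c * τ) (h00 : |a 0 0| ≤ c * σ * τ) (hσ : 0 ≤ σ) (hτ : 0 ≤ τ) :
    Maj (Bil a) (Std c σ τ 1 1) := by
  have hc : 0 ≤ c := (abs_nonneg _).trans h11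
  intro i j
  rw [coeff_Std, Bil_coeff]
  rcases j with _ | _ | j
  · rw [if_neg (by norm_num), if_pos rfl, Lin_coeff]
    rcases i with _ | _ | i
    · simpa using h11
    · simpa using h01
    · simp only [Nat.add_eq_zero_iff, one_ne_zero, and_false, if_false, abs_zero,
        show ¬ (i + 1 + 1 = 1) by omega]
      positivity
  · rw [if_pos rfl, Lin_coeff]
    rcases i with _ | _ | i
    · simpa using h10
    · simpa using h00
    · simp only [Nat.add_eq_zero_iff, one_ne_zero, and_false, if_false, abs_zero,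
        show ¬ (i + 1 + 1 = 1) by omega]
      positivity
  · rw [if_neg (by omega), if_neg (by omega), coeff_zero, abs_zero]
    positivity

lemma Maj_C {w : Fin 2 → ℝ} {c σ τ : ℝ} (h1 : |w 1| ≤ c) (h0 : |w 0| ≤ c * σ) (hσ : 0 ≤ σ) :
    Maj (C (Lin w)) (Std c σ τ 1 0) := by
  have hc : 0 ≤ c := (abs_nonneg _).trans h1
  intro i j
  rw [coeff_Std, coeff_C]
  rcases j with _ | j
  · rw [if_pos rfl, Lin_coeff]
    rcases i with _ | _ | i
    · simpa using h1
    · simpa using h0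
    · simp only [Nat.add_eq_zero_iff, one_ne_zero, and_false, if_false, abs_zero,
        show ¬ (i + 1 + 1 = 1) by omega]
      positivity
  · rw [if_neg (by omega)]
    simp

lemma Maj_M {w : Fin 2 → ℝ} {c σ τ : ℝ} (h1 : |w 1| ≤ c) (h0 : |w 0| ≤ c * τ) (hτ : 0 ≤ τ) :
    Maj ((Lin w).map C) (Std c σ τ 0 1) := by
  have hc : 0 ≤ c := (abs_nonneg _).trans h1
  intro i j
  rw [coeff_Std, coeff_map, Lin_coeff, coeff_C]
  rcases i with _ | i
  · rw [if_pos rfl]
    rcases j with _ | _ | j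
    · simpa using h1
    · simpa using h0
    · simp only [Nat.add_eq_zero_iff, one_ne_zero, and_false, if_false, abs_zero,
        show ¬ (j + 1 + 1 = 1) by omega]
      positivity
  · rw [if_neg (by omega)]
    simp

/-- the bihomogeneous polynomial of bidegree `(k, l)` -/
noncomputable def PP (a : Fin 2 → Fin 2 → ℝ) (w w' : Fin 2 → ℝ) (m p q : ℕ) : ℝ[X][X] :=
  Bil a ^ m * (C (Lin w)) ^ p * ((Lin w').map C) ^ q

lemma PP_maj {a : Fin 2 → Fin 2 → ℝ} {w w' : Fin 2 → ℝ} {b B1 B2 : ℝ} (hb : 0 < b) (hB1 : 0 < B1)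
    (hB2 : 0 < B2) (h11 : |a 1 1| ≤ b * B1 * B2) (h01 : |a 0 1| ≤ b * B2 / B1)
    (h10 : |a 1 0| ≤ b * B1 / B2) (h00 : |a 0 0| ≤ b / (B1 * B2))
    (hw1 : |w 1| ≤ b * B1) (hw0 : |w 0| ≤ b / B1) (hw1' : |w' 1| ≤ b * B2) (hw0' : |w' 0| ≤ b / B2)
    (m p q : ℕ) :
    Maj (PP a w w' m p q)
      (Std (b ^ (m + p + q) * B1 ^ (m + p) * B2 ^ (m + q)) ((B1 ^ 2)⁻¹) ((B2 ^ 2)⁻¹) (m + p) (m + q)) := by
  have h1 : Maj (Bil a) (Std (b * B1 * B2) ((B1 ^ 2)⁻¹) ((B2 ^ 2)⁻¹) 1 1) := by
    refine Maj_Bil h11 (h01.trans (le_of_eq ?_)) (h10.trans (le_of_eq ?_))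
      (h00.trans (le_of_eq ?_)) (by positivity) (by positivity)
    · field_simp
    · field_simp
    · field_simp
  have h2 : Maj (C (Lin w)) (Std (b * B1) ((B1 ^ 2)⁻¹) ((B2 ^ 2)⁻¹) 1 0) := by
    refine Maj_C hw1 (hw0.trans (le_of_eq ?_)) (by positivity)
    field_simp
  have h3 : Maj ((Lin w').map C) (Std (b * B2) ((B1 ^ 2)⁻¹) ((B2 ^ 2)⁻¹) 0 1) := by
    refine Maj_M hw1' (hw0'.trans (le_of_eq ?_)) (by positivity)
    field_simp
  have h4 := ((h1.pow m).mul (h2.pow p)).mul (h3.pow q)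
  rw [Std_pow, Std_pow, Std_pow, Std_mul, Std_mul] at h4
  unfold PP
  convert h4 using 2
  · ring
  · ring
  · ring

lemma natDegree_Lin (w : Fin 2 → ℝ) : (Lin w).natDegree ≤ 1 := natDegree_linear_le

lemma natDegree_Bil (a : Fin 2 → Fin 2 → ℝ) : (Bil a).natDegree ≤ 1 := natDegree_linear_le

/-- the coefficient at the highest powers of both variables -/
lemma PP_top (a : Fin 2 → Fin 2 → ℝ) (w w' : Fin 2 → ℝ) (m p q : ℕ) :
    ((PP a w w' m p q).coeff (m + q)).coeff (m + p) = a 0 0 ^ m * w 0 ^ p * w' 0 ^ q := by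
  have e1 : (Bil a ^ m).coeff m = (Lin fun r => a r 0) ^ m := by
    have := coeff_pow_of_natDegree_le (m := m) (natDegree_Bil a)
    rw [mul_one, Bil_coeff, if_pos rfl] at this
    exact this
  have e2 : (((Lin w').map C : ℝ[X][X]) ^ q).coeff q = C (w' 0 ^ q) := by
    rw [← Polynomial.map_pow, coeff_map]
    have := coeff_pow_of_natDegree_le (m := q) (natDegree_Lin w')
    rw [mul_one, Lin_coeff, if_pos rfl] at this
    rw [this]
  have e3 : (PP a w w' m p q).coeff (m + q) = (Lin fun r => a r 0) ^ m * (Lin w) ^ p * C (w' 0 ^ q) := by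
    unfold PP
    rw [coeff_mul_add_eq_of_natDegree_le (df := m) (dg := q), e2]
    · congr 1
      rw [← C_pow, coeff_mul_C, e1]
    · rw [← C_pow]
      refine (natDegree_mul_C_le _ _).trans ?_
      exact (natDegree_pow_le_of_le m (natDegree_Bil a)).trans (by rw [mul_one])
    · rw [← Polynomial.map_pow]
      refine natDegree_map_le.trans ?_
      exact (natDegree_pow_le_of_le q (natDegree_Lin w')).trans (by rw [mul_one])
  rw [e3, coeff_mul_C]
  congr 1
  rw [coeff_mul_add_eq_of_natDegree_le (df := m) (dg := p)]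
  · have h1 := coeff_pow_of_natDegree_le (m := m) (natDegree_Lin fun r => a r 0)
    have h2 := coeff_pow_of_natDegree_le (m := p) (natDegree_Lin w)
    rw [mul_one, Lin_coeff, if_pos rfl] at h1 h2
    rw [h1, h2]
  · exact (natDegree_pow_le_of_le m (natDegree_Lin _)).trans (by rw [mul_one])
  · exact (natDegree_pow_le_of_le p (natDegree_Lin _)).trans (by rw [mul_one])

/-- the coefficient at the highest power of the first and the power zero of the second variable -/
lemma PP_mix (a : Fin 2 → Fin 2 → ℝ) (w w' : Fin 2 → ℝ) (m p q : ℕ) :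
    ((PP a w w' m p q).coeff 0).coeff (m + p) = a 0 1 ^ m * w 0 ^ p * w' 1 ^ q := by
  have e3 : (PP a w w' m p q).coeff 0 = (Lin fun r => a r 1) ^ m * (Lin w) ^ p * C (w' 1 ^ q) := by
    unfold PP
    rw [mul_coeff_zero, mul_coeff_zero, coeff_zero_eq_eval_zero, coeff_zero_eq_eval_zero,
      coeff_zero_eq_eval_zero, eval_pow, eval_pow, eval_pow, ← coeff_zero_eq_eval_zero,
      ← coeff_zero_eq_eval_zero, ← coeff_zero_eq_eval_zero, Bil_coeff, coeff_C, coeff_map,
      Lin_coeff]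
    simp
  rw [e3, coeff_mul_C]
  congr 1
  rw [coeff_mul_add_eq_of_natDegree_le (df := m) (dg := p)]
  · have h1 := coeff_pow_of_natDegree_le (m := m) (natDegree_Lin fun r => a r 1)
    have h2 := coeff_pow_of_natDegree_le (m := p) (natDegree_Lin w)
    rw [mul_one, Lin_coeff, if_pos rfl] at h1 h2
    rw [h1, h2]
  · exact (natDegree_pow_le_of_le m (natDegree_Lin _)).trans (by rw [mul_one])
  · exact (natDegree_pow_le_of_le p (natDegree_Lin _)).trans (by rw [mul_one])

end Pool.Agent.K6.H32.TP
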