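import Mathlib
import Pool.Agent.K6.H32.TP1

/-! # Bihomogeneous forms: the product of the coefficients, integral forms -/

set_option autoImplicit false

open Polynomial Matrix Kronecker

namespace Pool.Agent.K6.H32.TP

open Pool.Agent.N759.CFr

lemma prod_weights {B : ℝ} (hB : 0 < B) (k : ℕ) :
    ∏ i : Fin (k + 1), (B ^ k * ((B ^ 2)⁻¹) ^ (i : ℕ)) = 1 := by
  rw [Fin.prod_univ_eq_prod_range (fun i => B ^ k * ((B ^ 2)⁻¹) ^ i) (k + 1)]
  rw [Finset.prod_mul_distrib, Finset.prod_const, Finset.card_range, Finset.prod_pow_eq_pow_sum,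
    inv_pow, ← pow_mul, ← pow_mul]
  have h4 := Finset.sum_range_id_mul_two (k + 1)
  simp only [Nat.add_sub_cancel] at h4
  rw [mul_comm 2, h4, mul_comm (k + 1) k]
  exact mul_inv_cancel₀ (by positivity)

lemma prod_small' {ι : Type*} [Fintype ι] [DecidableEq ι] (f W : ι → ℝ) {K δ : ℝ} (hprod : ∏ x, W x = 1) (h : ∀ x, |f x| ≤ K * W x) (x0 : ι)
    (h0 : |f x0| ≤ K * W x0 * δ) : |∏ x, f x| ≤ K ^ Fintype.card ι * δ := by
  rw [Finset.abs_prod]
  calc ∏ x, |f x| ≤ ∏ x, ((K * W x) * (if x = x0 then δ else 1)) := by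
        refine Finset.prod_le_prod (fun i _ => abs_nonneg _) fun x _ => ?_
        split_ifs with hx
        · rw [hx]; exact h0
        · rw [mul_one]; exact h x
    _ = _ := by
        rw [Finset.prod_mul_distrib, Finset.prod_mul_distrib, hprod, Finset.prod_const,
          Finset.card_univ, Finset.prod_ite_eq' Finset.univ x0 (fun _ => δ), mul_one,
          if_pos (Finset.mem_univ _)]

lemma main_bound {a : Fin 2 → Fin 2 → ℝ} {w w' : Fin 2 → ℝ} {b B1 B2 δ : ℝ} (hb : 0 < b)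
    (hB1 : 0 < B1) (hB2 : 0 < B2) (h11 : |a 1 1| ≤ b * B1 * B2) (h01 : |a 0 1| ≤ b * B2 / B1)
    (h10 : |a 1 0| ≤ b * B1 / B2) (h00 : |a 0 0| ≤ b / (B1 * B2))
    (hw1 : |w 1| ≤ b * B1) (hw0 : |w 0| ≤ b / B1) (hw1' : |w' 1| ≤ b * B2) (hw0' : |w' 0| ≤ b / B2)
    (m p q : ℕ) (hm : 1 ≤ m) (hδ : 0 ≤ δ) (hδ1 : δ ≤ 1)
    (hsmall : |a 0 0| ≤ b / (B1 * B2) * δ ∨ |a 0 1| ≤ b * B2 / B1 * δ) :
    |∏ x : Fin (m + p + 1) × Fin (m + q + 1), ((PP a w w' m p q).coeff x.2).coeff x.1|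
      ≤ (b ^ (m + p + q) * 2 ^ (m + p) * 2 ^ (m + q)) ^ ((m + p + 1) * (m + q + 1)) * δ := by
  have hmaj := PP_maj hb hB1 hB2 h11 h01 h10 h00 hw1 hw0 hw1' hw0' m p q
  set K : ℝ := b ^ (m + p + q) * 2 ^ (m + p) * 2 ^ (m + q) with hK
  have hK0 : 0 ≤ K := by positivity
  set σ : ℝ := (B1 ^ 2)⁻¹ with hσ
  set τ : ℝ := (B2 ^ 2)⁻¹ with hτ
  have hσ0 : 0 < σ := by positivity
  have hτ0 : 0 < τ := by positivity
  set W : Fin (m + p + 1) × Fin (m + q + 1) → ℝ := fun x =>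
    (B1 ^ (m + p) * σ ^ (x.1 : ℕ)) * (B2 ^ (m + q) * τ ^ (x.2 : ℕ)) with hW
  have hWprod : ∏ x, W x = 1 := by
    rw [hW, Fintype.prod_prod_type]
    have e1 := prod_weights hB1 (m + p)
    have e2 := prod_weights hB2 (m + q)
    rw [← hσ] at e1
    rw [← hτ] at e2
    have e3 : ∀ i : Fin (m + p + 1), ∏ j : Fin (m + q + 1),
        ((B1 ^ (m + p) * σ ^ (i : ℕ)) * (B2 ^ (m + q) * τ ^ (j : ℕ)))
        = (B1 ^ (m + p) * σ ^ (i : ℕ)) ^ (m + q + 1) := by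
      intro i
      rw [Finset.prod_mul_distrib, e2, mul_one, Finset.prod_const, Finset.card_univ,
        Fintype.card_fin]
    rw [Finset.prod_congr rfl fun i _ => e3 i, Finset.prod_pow, e1, one_pow]
  have hgen : ∀ x : Fin (m + p + 1) × Fin (m + q + 1),
      |((PP a w w' m p q).coeff x.2).coeff x.1| ≤ K * W x := by
    intro x
    refine (hmaj x.1 x.2).trans ?_
    rw [coeff_Std]
    have c1 : ((m + p).choose x.1 : ℝ) ≤ 2 ^ (m + p) := by
      exact_mod_cast Nat.choose_le_two_pow _ _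
    have c2 : ((m + q).choose x.2 : ℝ) ≤ 2 ^ (m + q) := by
      exact_mod_cast Nat.choose_le_two_pow _ _
    calc b ^ (m + p + q) * B1 ^ (m + p) * B2 ^ (m + q) * (((m + p).choose x.1 : ℝ) * σ ^ (x.1 : ℕ))
          * (((m + q).choose x.2 : ℝ) * τ ^ (x.2 : ℕ))
        ≤ b ^ (m + p + q) * B1 ^ (m + p) * B2 ^ (m + q) * (2 ^ (m + p) * σ ^ (x.1 : ℕ))
          * (2 ^ (m + q) * τ ^ (x.2 : ℕ)) := by gcongr
      _ = K * W x := by rw [hK, hW]; ring
  have hKb : b ^ (m + p + q) ≤ K := by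
    have h1 : (1 : ℝ) ≤ 2 ^ (m + p) := one_le_pow₀ (by norm_num)
    have h2 : (1 : ℝ) ≤ 2 ^ (m + q) := one_le_pow₀ (by norm_num)
    have h3 : 0 < b ^ (m + p + q) := by positivity
    calc b ^ (m + p + q) = b ^ (m + p + q) * 1 * 1 := by ring
      _ ≤ K := by rw [hK]; gcongr
  have hδm : δ ^ m ≤ δ := by
    calc δ ^ m ≤ δ ^ 1 := pow_le_pow_of_le_one hδ hδ1 hm
      _ = δ := pow_one _
  have hinv : ∀ (B : ℝ), 0 < B → ∀ n : ℕ, B ^ n * ((B ^ 2)⁻¹) ^ n = (B⁻¹) ^ n := by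
    intro B hB n
    rw [← mul_pow]
    congr 1
    field_simp
  have s1 : B1 ^ (m + p) * σ ^ (m + p) = (B1⁻¹) ^ (m + p) := hinv B1 hB1 _
  have s2 : B2 ^ (m + q) * τ ^ (m + q) = (B2⁻¹) ^ (m + q) := hinv B2 hB2 _
  have hcard : Fintype.card (Fin (m + p + 1) × Fin (m + q + 1)) = (m + p + 1) * (m + q + 1) := by
    simp
  rw [← hcard]
  have hw0p : |w 0| ^ p ≤ (b / B1) ^ p := pow_le_pow_left₀ (abs_nonneg _) hw0 p
  rcases hsmall with hs | hs
  · refine prod_small' _ W hWprod hgen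
      (⟨m + p, by omega⟩, ⟨m + q, by omega⟩) ?_
    simp only
    rw [PP_top, abs_mul, abs_mul, abs_pow, abs_pow, abs_pow]
    have h1 : |a 0 0| ^ m ≤ (b / (B1 * B2) * δ) ^ m := pow_le_pow_left₀ (abs_nonneg _) hs m
    have h3 : |w' 0| ^ q ≤ (b / B2) ^ q := pow_le_pow_left₀ (abs_nonneg _) hw0' q
    calc |a 0 0| ^ m * |w 0| ^ p * |w' 0| ^ q
        ≤ (b / (B1 * B2) * δ) ^ m * (b / B1) ^ p * (b / B2) ^ q := by gcongr
      _ = b ^ (m + p + q) * ((B1 ^ (m + p) * σ ^ (m + p)) * (B2 ^ (m + q) * τ ^ (m + q))) * δ ^ m := by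
          rw [s1, s2, div_eq_mul_inv, div_eq_mul_inv, div_eq_mul_inv, mul_inv]
          ring
      _ ≤ K * W (⟨m + p, by omega⟩, ⟨m + q, by omega⟩) * δ := by
          rw [hW]
          simp only
          gcongr
  · refine prod_small' _ W hWprod hgen
      (⟨m + p, by omega⟩, ⟨0, by omega⟩) ?_
    simp only
    rw [PP_mix, abs_mul, abs_mul, abs_pow, abs_pow, abs_pow]
    have h1 : |a 0 1| ^ m ≤ (b * B2 / B1 * δ) ^ m := pow_le_pow_left₀ (abs_nonneg _) hs m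
    have h3 : |w' 1| ^ q ≤ (b * B2) ^ q := pow_le_pow_left₀ (abs_nonneg _) hw1' q
    calc |a 0 1| ^ m * |w 0| ^ p * |w' 1| ^ q
        ≤ (b * B2 / B1 * δ) ^ m * (b / B1) ^ p * (b * B2) ^ q := by gcongr
      _ = b ^ (m + p + q) * ((B1 ^ (m + p) * σ ^ (m + p)) * (B2 ^ (m + q) * τ ^ 0)) * δ ^ m := by
          rw [s1, div_eq_mul_inv, div_eq_mul_inv]
          ring
      _ ≤ K * W (⟨m + p, by omega⟩, ⟨0, by omega⟩) * δ := by
          rw [hW]
          simp only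
          gcongr

/-- integral bihomogeneous forms -/
noncomputable def TF (U V U' V' : ℝ[X]) (k l : ℕ) : Submodule ℤ ℝ[X][X] :=
  Submodule.span ℤ {T | ∃ A ∈ SF U V k, ∃ A' ∈ SF U' V' l, T = C A * A'.map C}

lemma TF_mulC {U V U' V' : ℝ[X]} {k l : ℕ} (a b : ℤ) {T : ℝ[X][X]} (hT : T ∈ TF U V U' V' k l) :
    C (a • U + b • V) * T ∈ TF U V U' V' (k + 1) l := by
  unfold TF at hT
  induction hT using Submodule.span_induction with
  | mem x hx =>
    obtain ⟨A, hA, A', hA', rfl⟩ := hx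
    rw [← mul_assoc, ← C_mul]
    exact Submodule.subset_span ⟨_, mulL_mem a b hA, A', hA', rfl⟩
  | zero => rw [mul_zero]; exact Submodule.zero_mem _
  | add x y _ _ hx hy => rw [mul_add]; exact Submodule.add_mem _ hx hy
  | smul a x _ hx => rw [mul_smul_comm]; exact Submodule.smul_mem _ _ hx

lemma TF_mulM {U V U' V' : ℝ[X]} {k l : ℕ} (a b : ℤ) {T : ℝ[X][X]} (hT : T ∈ TF U V U' V' k l) :
    (a • U' + b • V').map C * T ∈ TF U V U' V' k (l + 1) := by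
  unfold TF at hT
  induction hT using Submodule.span_induction with
  | mem x hx =>
    obtain ⟨A, hA, A', hA', rfl⟩ := hx
    rw [mul_left_comm, ← Polynomial.map_mul]
    exact Submodule.subset_span ⟨A, hA, _, mulL_mem a b hA', rfl⟩
  | zero => rw [mul_zero]; exact Submodule.zero_mem _
  | add x y _ _ hx hy => rw [mul_add]; exact Submodule.add_mem _ hx hy
  | smul a x _ hx => rw [mul_smul_comm]; exact Submodule.smul_mem _ _ hx

lemma TF_one (U V U' V' : ℝ[X]) : (1 : ℝ[X][X]) ∈ TF U V U' V' 0 0 := by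
  refine Submodule.subset_span ⟨1, one_mem_SF U V, 1, one_mem_SF U' V', ?_⟩
  simp

/-- the bilinear polynomial of an integral matrix in local bases -/
lemma Bil_eq (Y : Matrix (Fin 2) (Fin 2) ℤ) (z w z' w' : Fin 2 → ℝ) :
    Bil (fun r s => z r * Y 0 0 * z' s + z r * Y 0 1 * w' s + w r * Y 1 0 * z' s
      + w r * Y 1 1 * w' s)
      = Y 0 0 • (C (Lin z) * (Lin z').map C) + Y 0 1 • (C (Lin z) * (Lin w').map C)
        + Y 1 0 • (C (Lin w) * (Lin z').map C) + Y 1 1 • (C (Lin w) * (Lin w').map C) := by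
  simp only [Bil, Lin, Polynomial.map_add, Polynomial.map_mul, map_C, map_X, zsmul_eq_mul, C_add,
    C_mul, map_intCast]
  ring

lemma PP_mem {U V U' V' : ℝ[X]} (Y : Matrix (Fin 2) (Fin 2) ℤ) {z w z' w' : Fin 2 → ℝ}
    (hz : ∃ a b : ℤ, Lin z = a • U + b • V) (hw : ∃ a b : ℤ, Lin w = a • U + b • V)
    (hz' : ∃ a b : ℤ, Lin z' = a • U' + b • V') (hw' : ∃ a b : ℤ, Lin w' = a • U' + b • V')
    (m p q : ℕ) :
    PP (fun r s => z r * Y 0 0 * z' s + z r * Y 0 1 * w' s + w r * Y 1 0 * z' s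
      + w r * Y 1 1 * w' s) w w' m p q ∈ TF U V U' V' (m + p) (m + q) := by
  obtain ⟨z1, z2, hz⟩ := hz
  obtain ⟨w1, w2, hw⟩ := hw
  obtain ⟨z1', z2', hz'⟩ := hz'
  obtain ⟨w1', w2', hw'⟩ := hw'
  have hB : ∀ (k l : ℕ) (T : ℝ[X][X]), T ∈ TF U V U' V' k l →
      Bil (fun r s => z r * Y 0 0 * z' s + z r * Y 0 1 * w' s + w r * Y 1 0 * z' s
      + w r * Y 1 1 * w' s) * T ∈ TF U V U' V' (k + 1) (l + 1) := by
    intro k l T hT
    rw [Bil_eq, add_mul, add_mul, add_mul, smul_mul_assoc, smul_mul_assoc, smul_mul_assoc,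
      smul_mul_assoc, mul_assoc, mul_assoc, mul_assoc, mul_assoc, hz, hw, hz', hw']
    exact Submodule.add_mem _ (Submodule.add_mem _ (Submodule.add_mem _
      (Submodule.smul_mem _ _ (TF_mulC _ _ (TF_mulM _ _ hT)))
      (Submodule.smul_mem _ _ (TF_mulC _ _ (TF_mulM _ _ hT))))
      (Submodule.smul_mem _ _ (TF_mulC _ _ (TF_mulM _ _ hT))))
      (Submodule.smul_mem _ _ (TF_mulC _ _ (TF_mulM _ _ hT)))
  have h1 : ∀ m : ℕ, Bil (fun r s => z r * Y 0 0 * z' s + z r * Y 0 1 * w' s + w r * Y 1 0 * z' s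
      + w r * Y 1 1 * w' s) ^ m ∈ TF U V U' V' m m := by
    intro m
    induction m with
    | zero => rw [pow_zero]; exact TF_one _ _ _ _
    | succ m ih => rw [pow_succ']; exact hB _ _ _ ih
  have h2 : ∀ p : ℕ, Bil (fun r s => z r * Y 0 0 * z' s + z r * Y 0 1 * w' s + w r * Y 1 0 * z' s
      + w r * Y 1 1 * w' s) ^ m * (C (Lin w)) ^ p ∈ TF U V U' V' (m + p) m := by
    intro p
    induction p with
    | zero => rw [pow_zero, mul_one]; exact h1 m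
    | succ p ih =>
      rw [pow_succ, ← mul_assoc, mul_comm _ (C (Lin w)), hw]
      rw [hw] at ih
      exact TF_mulC _ _ ih
  unfold PP
  induction q with
  | zero => rw [pow_zero, mul_one]; exact h2 p
  | succ q ih =>
    rw [pow_succ, ← mul_assoc, mul_comm _ ((Lin w').map C), hw']
    rw [hw'] at ih
    exact TF_mulM _ _ ih

lemma TF_vec {U V U' V' : ℝ[X]} {k l : ℕ} {T : ℝ[X][X]} (hT : T ∈ TF U V U' V' k l) :
    ∃ x : Fin (k + 1) × Fin (l + 1) → ℤ,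
      ∑ y, x y • ((C (U ^ (k - (y.1 : ℕ)) * V ^ (y.1 : ℕ)) : ℝ[X][X])
        * (U' ^ (l - (y.2 : ℕ)) * V' ^ (y.2 : ℕ)).map C) = T := by
  refine (Submodule.mem_span_range_iff_exists_fun ℤ).1 ?_
  unfold TF at hT
  refine Submodule.span_le.2 ?_ hT
  rintro T ⟨A, hA, A', hA', rfl⟩
  obtain ⟨u, hu⟩ := (Submodule.mem_span_range_iff_exists_fun ℤ).1 hA
  obtain ⟨v, hv⟩ := (Submodule.mem_span_range_iff_exists_fun ℤ).1 hA'
  refine (Submodule.mem_span_range_iff_exists_fun ℤ).2 ⟨fun y => u y.1 * v y.2, ?_⟩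
  rw [← hu, ← hv, map_sum, Polynomial.map_sum, Finset.sum_mul_sum, Fintype.sum_prod_type]
  refine Finset.sum_congr rfl fun i _ => Finset.sum_congr rfl fun j _ => ?_
  simp only [zsmul_eq_mul, Polynomial.map_mul, C_mul, Int.cast_mul]
  have e1 : ((u i : ℤ) : ℝ[X][X]) = C ((u i : ℤ) : ℝ[X]) := by simp
  have e2 : ((v j : ℤ) : ℝ[X][X]) = (((v j : ℤ) : ℝ[X])).map C := by simp
  rw [e1, e2]
  ring

lemma tensor_mulVec (k l : ℕ) (g h : Matrix (Fin 2) (Fin 2) ℝ) (x : Fin (k + 1) × Fin (l + 1) → ℤ)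
    (i : Fin (k + 1) × Fin (l + 1)) :
    ((symM k g ⊗ₖ symM l h) *ᵥ fun y => (x y : ℝ)) i
      = ((∑ y, x y • ((C ((C (g 0 0) * X + C (g 1 0)) ^ (k - (y.1 : ℕ))
            * (C (g 0 1) * X + C (g 1 1)) ^ (y.1 : ℕ)) : ℝ[X][X])
        * ((C (h 0 0) * X + C (h 1 0)) ^ (l - (y.2 : ℕ))
            * (C (h 0 1) * X + C (h 1 1)) ^ (y.2 : ℕ)).map C)).coeff i.2).coeff i.1 := by
  rw [finsetSum_coeff, finsetSum_coeff]
  simp only [Matrix.mulVec, dotProduct, kroneckerMap_apply]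
  refine Finset.sum_congr rfl fun y _ => ?_
  rw [coeff_smul, coeff_smul, coeff_CM, zsmul_eq_mul]
  simp only [symM, Matrix.of_apply]
  ring

end Pool.Agent.K6.H32.TP
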