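import Mathlib
import Pool.Agent.K6.H32.TP2
import Pool.Agent.N759.CFr.Palin

/-! # Tensor products of symmetric powers of two binary lattices: small values -/

set_option autoImplicit false

open Polynomial Matrix Kronecker

namespace Pool.Agent.K6.H32.TP

open Pool.Agent.N759.CFr

/-- the local bounds -/
structure Loc (z w : Fin 2 → ℝ) (x B S : ℝ) : Prop where
  hx : 1 < x
  hB : 0 < B
  hS : 1 ≤ S
  z0 : z 0 = x * w 0
  key : |w 0| * (B * x) ≤ 2 * S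
  w1 : |w 1| ≤ S * B
  z1 : |z 1| ≤ S * B

lemma loc {α : ℝ} (hα : Irrational α) (g : Matrix (Fin 2) (Fin 2) ℝ) (hg : g 0 0 = α * g 0 1)
    (n : ℕ) :
    Loc (fun r => lu α (g r 0) (g r 1) (n + 1)) (fun r => lv α (g r 0) (g r 1) (n + 1))
      (cq α (n + 1)) (BB α (n + 1)) (|g 0 1| + cst α g + 1) := by
  have hB : 0 < BB α (n + 1) := BB_pos hα _
  have hC : 0 ≤ cst α g := cst_nonneg _ _
  have hV : 0 ≤ |g 0 1| := abs_nonneg _
  refine ⟨one_lt_cq hα n, hB, by linarith, ?_, ?_, ?_, ?_⟩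
  · show lu α (g 0 0) (g 0 1) (n + 1) = cq α (n + 1) * lv α (g 0 0) (g 0 1) (n + 1)
    rw [hg]; exact lu_eq hα _ _
  · have : |lv α (g 0 0) (g 0 1) (n + 1)| * (BB α (n + 1) * cq α (n + 1)) ≤ 2 * |g 0 1| := by
      rw [hg]; exact key_le hα _ _
    show |lv α (g 0 0) (g 0 1) (n + 1)| * (BB α (n + 1) * cq α (n + 1)) ≤ _
    linarith
  · have h1 : |lv α (g 1 0) (g 1 1) (n + 1)| ≤ cst α g * BB α (n + 1) := abs_lv_le hα _ _ _
    show |lv α (g 1 0) (g 1 1) (n + 1)| ≤ _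
    nlinarith
  · have h1 : |lu α (g 1 0) (g 1 1) (n + 1)| ≤ cst α g * BB α (n + 1) := abs_lu_le hα _ _ _
    show |lu α (g 1 0) (g 1 1) (n + 1)| ≤ _
    nlinarith

lemma Loc.w0 {z w : Fin 2 → ℝ} {x B S : ℝ} (h : Loc z w x B S) : |w 0| ≤ 2 * S / (B * x) := by
  have := h.hx
  have := h.hB
  rw [le_div_iff₀ (by positivity)]
  exact h.key

lemma Loc.w0' {z w : Fin 2 → ℝ} {x B S : ℝ} (h : Loc z w x B S) : |w 0| ≤ 2 * S / B := by
  refine h.w0.trans ?_
  have h1 := h.hx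
  have h2 := h.hB
  have h3 := h.hS
  refine div_le_div_of_nonneg_left (by positivity) h2 ?_
  nlinarith

/-- common blocks -/
lemma direct_bounds {z w z' w' : Fin 2 → ℝ} {x y B B' S S' δ : ℝ} (h : Loc z w x B S)
    (h' : Loc z' w' y B' S') (hδ : 0 ≤ δ) (hxy : |x - y| ≤ δ) :
    |z 1 * w' 1 - w 1 * z' 1| ≤ (8 * S * S') * B * B' ∧
    |z 0 * w' 1 - w 0 * z' 1| ≤ (8 * S * S') * B' / B ∧
    |z 1 * w' 0 - w 1 * z' 0| ≤ (8 * S * S') * B / B' ∧
    |z 0 * w' 0 - w 0 * z' 0| ≤ (8 * S * S') / (B * B') * δ := by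
  have hx := h.hx; have hB := h.hB; have hS := h.hS
  have hy := h'.hx; have hB' := h'.hB; have hS' := h'.hS
  have hx0 : 0 < x := by linarith
  have hy0 : 0 < y := by linarith
  have k1 := h.w0
  have k2 := h'.w0
  have w1 := h.w1; have z1 := h.z1; have w1' := h'.w1; have z1' := h'.z1
  refine ⟨?_, ?_, ?_, ?_⟩
  · refine (abs_sub _ _).trans ?_
    rw [abs_mul, abs_mul]
    calc |z 1| * |w' 1| + |w 1| * |z' 1| ≤ (S * B) * (S' * B') + (S * B) * (S' * B') := by gcongr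
      _ ≤ 8 * S * S' * B * B' := by
        have : 0 < S * S' * B * B' := by positivity
        nlinarith
  · have e1 : z 0 * w' 1 - w 0 * z' 1 = w 0 * (x * w' 1 - z' 1) := by rw [h.z0]; ring
    rw [e1, abs_mul]
    have e2 : |x * w' 1 - z' 1| ≤ 2 * x * (S' * B') := by
      refine (abs_sub _ _).trans ?_
      rw [abs_mul, abs_of_pos hx0]
      have : 0 < S' * B' := by positivity
      nlinarith
    calc |w 0| * |x * w' 1 - z' 1| ≤ (2 * S / (B * x)) * (2 * x * (S' * B')) := by gcongr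
      _ = (4 * S * S') * B' / B := by field_simp; ring
      _ ≤ (8 * S * S') * B' / B := by gcongr; norm_num
  · have e1 : z 1 * w' 0 - w 1 * z' 0 = w' 0 * (z 1 - y * w 1) := by rw [h'.z0]; ring
    rw [e1, abs_mul]
    have e2 : |z 1 - y * w 1| ≤ 2 * y * (S * B) := by
      refine (abs_sub _ _).trans ?_
      rw [abs_mul, abs_of_pos hy0]
      have : 0 < S * B := by positivity
      nlinarith
    calc |w' 0| * |z 1 - y * w 1| ≤ (2 * S' / (B' * y)) * (2 * y * (S * B)) := by gcongr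
      _ = (4 * S * S') * B / B' := by field_simp; ring
      _ ≤ (8 * S * S') * B / B' := by gcongr; norm_num
  · have e1 : z 0 * w' 0 - w 0 * z' 0 = w 0 * w' 0 * (x - y) := by rw [h.z0, h'.z0]; ring
    rw [e1, abs_mul, abs_mul]
    calc |w 0| * |w' 0| * |x - y| ≤ (2 * S / B) * (2 * S' / B') * δ := by
          have := h.w0'; have := h'.w0'; gcongr
      _ = (4 * S * S') / (B * B') * δ := by field_simp; ring
      _ ≤ (8 * S * S') / (B * B') * δ := by gcongr; norm_num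

/-- mirrored blocks -/
lemma reversed_bounds {z w z' w' : Fin 2 → ℝ} {x y B B' S S' δ : ℝ} (h : Loc z w x B S)
    (h' : Loc z' w' y B' S') (hδ : 0 ≤ δ)
    (hs : |x * z' 1 + w' 1| ≤ 2 * (S' * B') * δ) :
    |z 1 * z' 1 + w 1 * w' 1| ≤ (8 * S * S') * B * B' ∧
    |z 0 * z' 1 + w 0 * w' 1| ≤ (8 * S * S') * B' / B * δ ∧
    |z 1 * z' 0 + w 1 * w' 0| ≤ (8 * S * S') * B / B' ∧
    |z 0 * z' 0 + w 0 * w' 0| ≤ (8 * S * S') / (B * B') := by
  have hx := h.hx; have hB := h.hB; have hS := h.hS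
  have hy := h'.hx; have hB' := h'.hB; have hS' := h'.hS
  have hx0 : 0 < x := by linarith
  have hy0 : 0 < y := by linarith
  have k1 := h.w0
  have k2 := h'.w0
  have w1 := h.w1; have z1 := h.z1; have w1' := h'.w1; have z1' := h'.z1
  refine ⟨?_, ?_, ?_, ?_⟩
  · refine (abs_add_le _ _).trans ?_
    rw [abs_mul, abs_mul]
    calc |z 1| * |z' 1| + |w 1| * |w' 1| ≤ (S * B) * (S' * B') + (S * B) * (S' * B') := by gcongr
      _ ≤ 8 * S * S' * B * B' := by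
        have : 0 < S * S' * B * B' := by positivity
        nlinarith
  · have e1 : z 0 * z' 1 + w 0 * w' 1 = w 0 * (x * z' 1 + w' 1) := by rw [h.z0]; ring
    rw [e1, abs_mul]
    calc |w 0| * |x * z' 1 + w' 1| ≤ (2 * S / B) * (2 * (S' * B') * δ) := by
          have := h.w0'; gcongr
      _ = (4 * S * S') * B' / B * δ := by field_simp; ring
      _ ≤ (8 * S * S') * B' / B * δ := by gcongr; norm_num
  · have e1 : z 1 * z' 0 + w 1 * w' 0 = w' 0 * (y * z 1 + w 1) := by rw [h'.z0]; ring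
    rw [e1, abs_mul]
    have e2 : |y * z 1 + w 1| ≤ 2 * y * (S * B) := by
      refine (abs_add_le _ _).trans ?_
      rw [abs_mul, abs_of_pos hy0]
      have : 0 < S * B := by positivity
      nlinarith
    calc |w' 0| * |y * z 1 + w 1| ≤ (2 * S' / (B' * y)) * (2 * y * (S * B)) := by gcongr
      _ = (4 * S * S') * B / B' := by field_simp; ring
      _ ≤ (8 * S * S') * B / B' := by gcongr; norm_num
  · have e1 : z 0 * z' 0 + w 0 * w' 0 = w 0 * w' 0 * (x * y + 1) := by rw [h.z0, h'.z0]; ring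
    rw [e1, abs_mul, abs_mul, abs_of_pos (by positivity : 0 < x * y + 1)]
    have e2 : x * y + 1 ≤ 2 * (x * y) := by nlinarith
    calc |w 0| * |w' 0| * (x * y + 1) ≤ (2 * S / (B * x)) * (2 * S' / (B' * y)) * (2 * (x * y)) := by
          gcongr
      _ = (8 * S * S') / (B * B') := by field_simp; ring

lemma Lin_ne {z w : Fin 2 → ℝ} (hd : z 0 * w 1 - w 0 * z 1 ≠ 0) : Lin w ≠ 0 :=
  lin_ne hd

lemma Bil_ne {a : Fin 2 → Fin 2 → ℝ} (hd : a 0 0 * a 1 1 - a 0 1 * a 1 0 ≠ 0) : Bil a ≠ 0 := by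
  intro h
  have h1 : ∀ i j : ℕ, ((Bil a).coeff j).coeff i = 0 := by intro i j; rw [h]; simp
  have h2 := h1 1 1
  have h3 := h1 1 0
  rw [Bil_coeff, if_pos rfl, Lin_coeff, if_pos rfl] at h2
  rw [Bil_coeff, if_neg (by norm_num), if_pos rfl, Lin_coeff, if_pos rfl] at h3
  apply hd
  rw [h2, h3]
  ring

lemma PP_ne {a : Fin 2 → Fin 2 → ℝ} {w w' : Fin 2 → ℝ} (ha : Bil a ≠ 0) (hw : Lin w ≠ 0)
    (hw' : Lin w' ≠ 0) (m p q : ℕ) : PP a w w' m p q ≠ 0 := by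
  unfold PP
  refine mul_ne_zero (mul_ne_zero (pow_ne_zero _ ha) (pow_ne_zero _ ?_)) (pow_ne_zero _ ?_)
  · rwa [Ne, C_eq_zero]
  · rwa [Ne, Polynomial.map_eq_zero_iff (C_injective)]

/-- from the local bounds to an integral point -/
lemma exists_point {α β : ℝ} (g h N : Matrix (Fin 2) (Fin 2) ℝ) (hN : N.det ≠ 0)
    (M : Matrix (Fin 2) (Fin 2) ℤ) (hM : N = M.map (Int.cast : ℤ → ℝ))
    (hg : g.det ≠ 0) (hh : h.det ≠ 0) (s t : ℕ) (Y : Matrix (Fin 2) (Fin 2) ℤ) (hY : Y.det ≠ 0)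
    (m p q : ℕ) :
    ∃ x : Fin (m + p + 1) × Fin (m + q + 1) → ℤ, x ≠ 0 ∧
      ∀ i, ((symM (m + p) g ⊗ₖ symM (m + q) h) *ᵥ fun y => (x y : ℝ)) i
        = ((PP (fun r u => lu α (g r 0) (g r 1) s * Y 0 0 * lu β ((h * N) u 0) ((h * N) u 1) t
            + lu α (g r 0) (g r 1) s * Y 0 1 * lv β ((h * N) u 0) ((h * N) u 1) t
            + lv α (g r 0) (g r 1) s * Y 1 0 * lu β ((h * N) u 0) ((h * N) u 1) t
            + lv α (g r 0) (g r 1) s * Y 1 1 * lv β ((h * N) u 0) ((h * N) u 1) t)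
            (fun r => lv α (g r 0) (g r 1) s) (fun u => lv β ((h * N) u 0) ((h * N) u 1) t)
            m p q).coeff i.2).coeff i.1 := by
  set z : Fin 2 → ℝ := fun r => lu α (g r 0) (g r 1) s with hz
  set w : Fin 2 → ℝ := fun r => lv α (g r 0) (g r 1) s with hw
  set z' : Fin 2 → ℝ := fun u => lu β ((h * N) u 0) ((h * N) u 1) t with hz'
  set w' : Fin 2 → ℝ := fun u => lv β ((h * N) u 0) ((h * N) u 1) t with hw'
  have hdN : (h * N).det ≠ 0 := by rw [det_mul]; exact mul_ne_zero hh hN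
  have hd1 : z 0 * w 1 - w 0 * z 1 ≠ 0 := local_det α hg s
  have hd2 : z' 0 * w' 1 - w' 0 * z' 1 ≠ 0 := local_det β hdN t
  obtain ⟨l1, l2⟩ := local_poly α g s
  obtain ⟨l1', l2'⟩ := local_poly β (h * N) t
  have hU : (C ((h * N) 0 0) * X + C ((h * N) 1 0) : ℝ[X])
      = M 0 0 • (C (h 0 0) * X + C (h 1 0)) + M 1 0 • (C (h 0 1) * X + C (h 1 1)) := by
    simp only [hM, Matrix.mul_apply, Fin.sum_univ_two, map_apply, zsmul_eq_mul, C_add, C_mul,
      map_intCast]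
    ring
  have hV : (C ((h * N) 0 1) * X + C ((h * N) 1 1) : ℝ[X])
      = M 0 1 • (C (h 0 0) * X + C (h 1 0)) + M 1 1 • (C (h 0 1) * X + C (h 1 1)) := by
    simp only [hM, Matrix.mul_apply, Fin.sum_univ_two, map_apply, zsmul_eq_mul, C_add, C_mul,
      map_intCast]
    ring
  have hmem := PP_mem (U := C (g 0 0) * X + C (g 1 0)) (V := C (g 0 1) * X + C (g 1 1))
    (U' := C (h 0 0) * X + C (h 1 0)) (V' := C (h 0 1) * X + C (h 1 1)) Y (z := z) (w := w)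
    (z' := z') (w' := w') ⟨_, _, l1.symm⟩ ⟨_, _, l2.symm⟩
    (by
      refine ⟨CC β t 0 0 * M 0 0 + CC β t 1 0 * M 0 1, CC β t 0 0 * M 1 0 + CC β t 1 0 * M 1 1, ?_⟩
      rw [show Lin z' = _ from l1'.symm, hU, hV]
      simp only [zsmul_eq_mul, Int.cast_add, Int.cast_mul]
      ring)
    (by
      refine ⟨CC β t 0 1 * M 0 0 + CC β t 1 1 * M 0 1, CC β t 0 1 * M 1 0 + CC β t 1 1 * M 1 1, ?_⟩
      rw [show Lin w' = _ from l2'.symm, hU, hV]
      simp only [zsmul_eq_mul, Int.cast_add, Int.cast_mul]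
      ring) m p q
  obtain ⟨x, hx⟩ := TF_vec hmem
  refine ⟨x, ?_, fun i => ?_⟩
  · rintro rfl
    have hne : PP (fun r u => z r * Y 0 0 * z' u + z r * Y 0 1 * w' u + w r * Y 1 0 * z' u
        + w r * Y 1 1 * w' u) w w' m p q ≠ 0 := by
      refine PP_ne (Bil_ne ?_) (Lin_ne hd1) (Lin_ne hd2) m p q
      have hYr : (Y 0 0 : ℝ) * Y 1 1 - Y 0 1 * Y 1 0 ≠ 0 := by
        rw [Matrix.det_fin_two] at hY
        exact_mod_cast hY
      have e1 : (z 0 * Y 0 0 * z' 0 + z 0 * Y 0 1 * w' 0 + w 0 * Y 1 0 * z' 0 + w 0 * Y 1 1 * w' 0)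
          * (z 1 * Y 0 0 * z' 1 + z 1 * Y 0 1 * w' 1 + w 1 * Y 1 0 * z' 1 + w 1 * Y 1 1 * w' 1)
          - (z 0 * Y 0 0 * z' 1 + z 0 * Y 0 1 * w' 1 + w 0 * Y 1 0 * z' 1 + w 0 * Y 1 1 * w' 1)
          * (z 1 * Y 0 0 * z' 0 + z 1 * Y 0 1 * w' 0 + w 1 * Y 1 0 * z' 0 + w 1 * Y 1 1 * w' 0)
          = (z 0 * w 1 - w 0 * z 1) * (z' 0 * w' 1 - w' 0 * z' 1)
            * ((Y 0 0 : ℝ) * Y 1 1 - Y 0 1 * Y 1 0) := by ring
      rw [e1]
      exact mul_ne_zero (mul_ne_zero hd1 hd2) hYr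
    apply hne
    rw [← hx]
    exact Finset.sum_eq_zero fun j _ => by simp
  · rw [tensor_mulVec, ← hx]

end Pool.Agent.K6.H32.TP
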