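import Mathlib
import Pool.Agent.K6.H32.TP3

/-! # Tensor products of symmetric powers of two binary lattices: final form -/

set_option autoImplicit false

open Polynomial Matrix Kronecker Filter Topology

namespace Pool.Agent.K6.H32.TP

open Pool.Agent.N759.CFr

/-- a rational linear fractional image of an irrational number is irrational -/
lemma irr_mobius {β : ℝ} (hβ : Irrational β) (N : Matrix (Fin 2) (Fin 2) ℤ) (hN : N.det ≠ 0) :
    (N 1 0 : ℝ) * β + N 1 1 ≠ 0 ∧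
      Irrational (((N 0 0 : ℝ) * β + N 0 1) / ((N 1 0 : ℝ) * β + N 1 1)) := by
  rw [Matrix.det_fin_two] at hN
  have key : ∀ r s : ℚ, (r : ℝ) * β + s = 0 → r = 0 ∧ s = 0 := by
    intro r s h
    by_cases hr : r = 0
    · subst hr
      refine ⟨rfl, ?_⟩
      simpa using h
    · exfalso
      apply hβ
      refine ⟨-s / r, ?_⟩
      have hr' : (r : ℝ) ≠ 0 := by exact_mod_cast hr
      push_cast
      rw [div_eq_iff hr']
      linarith
  have h1 : (N 1 0 : ℝ) * β + N 1 1 ≠ 0 := by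
    intro h
    obtain ⟨h2, h3⟩ := key (N 1 0) (N 1 1) (by exact_mod_cast h)
    have h2' : N 1 0 = 0 := by exact_mod_cast h2
    have h3' : N 1 1 = 0 := by exact_mod_cast h3
    apply hN
    rw [h2', h3']
    ring
  refine ⟨h1, ?_⟩
  rintro ⟨q, hq⟩
  rw [eq_div_iff h1] at hq
  obtain ⟨h2, h3⟩ := key (N 0 0 - q * N 1 0) (N 0 1 - q * N 1 1) (by
    push_cast
    linear_combination -hq)
  apply hN
  have h4 : ((N 0 0 * N 1 1 - N 0 1 * N 1 0 : ℤ) : ℚ) = 0 := by
    push_cast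
    linear_combination (N 1 1 : ℚ) * h2 - (N 1 0 : ℚ) * h3
  exact_mod_cast h4

/-- small values of the tensor product -/
theorem tensor_small {α β : ℝ} (hα : Irrational α) (hβ : Irrational β)
    (N : Matrix (Fin 2) (Fin 2) ℤ) (hN : N.det ≠ 0)
    (hc : ∀ L : ℕ, ∃ i j : ℕ,
      (∀ r < L, pq α (i + r)
        = pq (((N 0 0 : ℝ) * β + N 0 1) / ((N 1 0 : ℝ) * β + N 1 1)) (j + r)) ∨
      (∀ r < L, pq α (i + r)
        = pq (((N 0 0 : ℝ) * β + N 0 1) / ((N 1 0 : ℝ) * β + N 1 1)) (j + (L - 1 - r))))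
    (g h : Matrix (Fin 2) (Fin 2) ℝ) (hg : g.det ≠ 0) (hh : h.det ≠ 0)
    (hgα : g 0 0 = α * g 0 1) (hhβ : h 0 0 = β * h 0 1) (k l : ℕ) (hk : 1 ≤ k) (hl : 1 ≤ l)
    (n : ℕ) (hn : 0 < n) (G : Matrix (Fin n) (Fin n) ℝ) (ε : ℝ) (hε : 0 < ε) :
    ∃ x : (Fin (k + 1) × Fin (l + 1)) × Fin n → ℤ, x ≠ 0 ∧
      |∏ i, (((symM k g ⊗ₖ symM l h) ⊗ₖ G) *ᵥ fun j => (x j : ℝ)) i| < ε := by
  refine kron_small _ (fun η hη => ?_) n hn G ε hε
  obtain ⟨m, p, q, rfl, rfl, hm⟩ : ∃ m p q : ℕ, k = m + p ∧ l = m + q ∧ 1 ≤ m := by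
    rcases le_total k l with h1 | h1
    · exact ⟨k, 0, l - k, by omega, by omega, hk⟩
    · exact ⟨l, k - l, 0, by omega, by omega, hl⟩
  obtain ⟨hne, hγ⟩ := irr_mobius hβ N hN
  set γ : ℝ := ((N 0 0 : ℝ) * β + N 0 1) / ((N 1 0 : ℝ) * β + N 1 1) with hγdef
  set R : Matrix (Fin 2) (Fin 2) ℝ := Nᵀ.map (Int.cast : ℤ → ℝ) with hR
  have hRdet : R.det ≠ 0 := by
    rw [Matrix.det_fin_two] at hN
    rw [hR, Matrix.det_fin_two]
    simp only [map_apply, transpose_apply]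
    rw [mul_comm (N 1 0 : ℝ)]
    exact_mod_cast hN
  have hhγ : (h * R) 0 0 = γ * (h * R) 0 1 := by
    simp only [hR, Matrix.mul_apply, Fin.sum_univ_two, map_apply, transpose_apply]
    rw [hhβ, hγdef, eq_comm, div_mul_eq_mul_div, div_eq_iff hne]
    ring
  set S := |g 0 1| + cst α g + 1 with hS
  set S' := |(h * R) 0 1| + cst γ (h * R) + 1 with hS'
  have hS1 : 1 ≤ S := by
    have := cst_nonneg α g; have := abs_nonneg (g 0 1); linarith
  have hS1' : 1 ≤ S' := by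
    have := cst_nonneg γ (h * R); have := abs_nonneg ((h * R) 0 1); linarith
  set b : ℝ := 8 * S * S' with hb
  have hb0 : 0 < b := by positivity
  set K : ℝ := (b ^ (m + p + q) * 2 ^ (m + p) * 2 ^ (m + q)) ^ ((m + p + 1) * (m + q + 1)) with hK
  have hK0 : 0 < K := by positivity
  obtain ⟨M, hM⟩ := exists_pow_lt_of_lt_one (show 0 < η / K by positivity)
    (show (1 / 2 : ℝ) < 1 by norm_num)
  have hfin : K * (1 / 2 : ℝ) ^ M < η := by
    rw [lt_div_iff₀ hK0] at hM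
    linarith
  have hδ0 : (0 : ℝ) ≤ (1 / 2) ^ M := by positivity
  have hδ1 : ((1 : ℝ) / 2) ^ M ≤ 1 := pow_le_one₀ (by norm_num) (by norm_num)
  have hbw : ∀ {z w : Fin 2 → ℝ} {x B T T' : ℝ}, Loc z w x B T → 1 ≤ T' →
      |w 1| ≤ 8 * T * T' * B ∧ |w 0| ≤ 8 * T * T' / B := by
    intro z w x B T T' hL hT'
    have h1 := hL.hB; have h2 := hL.hS
    constructor
    · refine hL.w1.trans ?_
      have : T ≤ 8 * T * T' := by nlinarith
      exact mul_le_mul_of_nonneg_right this h1.le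
    · refine hL.w0'.trans ?_
      have : 2 * T ≤ 8 * T * T' := by nlinarith
      exact div_le_div_of_nonneg_right this h1.le
  obtain ⟨i, j, hij | hij⟩ := hc (2 * M + 3)
  · -- common blocks
    have hL := loc hα g hgα i
    have hL' := loc hγ (h * R) hhγ j
    have hdiff : |cq α (i + 1) - cq γ (j + 1)| ≤ (1 / 2) ^ M := by
      refine diff_le (irr_cq hα _) (irr_cq hγ _) M fun r hr => ?_
      rw [← pq_add, ← pq_add, show i + 1 + r = i + (r + 1) by ring,
        show j + 1 + r = j + (r + 1) by ring]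
      exact hij (r + 1) (by omega)
    obtain ⟨b11, b01, b10, b00⟩ := direct_bounds hL hL' hδ0 hdiff
    obtain ⟨x, hx, hx2⟩ := exists_point (α := α) (β := γ) g h R hRdet Nᵀ hR hg hh (i + 1) (j + 1)
      !![0, 1; -1, 0] (by simp) m p q
    refine ⟨x, hx, lt_of_le_of_lt ?_ hfin⟩
    rw [Finset.prod_congr rfl fun i _ => hx2 i]
    obtain ⟨v1, v0⟩ := hbw hL hS1'
    obtain ⟨v1', v0'⟩ := hbw hL' hS1
    have hcomm : 8 * S' * S = 8 * S * S' := by ring
    rw [← hS', hcomm] at v1' v0'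
    rw [← hS] at v1 v0
    have hB := hL.hB; have hB' := hL'.hB
    have b00' : |lu α (g 0 0) (g 0 1) (i + 1) * lv γ ((h * R) 0 0) ((h * R) 0 1) (j + 1)
        - lv α (g 0 0) (g 0 1) (i + 1) * lu γ ((h * R) 0 0) ((h * R) 0 1) (j + 1)|
        ≤ b / (BB α (i + 1) * BB γ (j + 1)) := by
      refine b00.trans ?_
      have : 0 ≤ b / (BB α (i + 1) * BB γ (j + 1)) := by positivity
      nlinarith
    refine main_bound hb0 hB hB' ?_ ?_ ?_ ?_ v1 v0 v1' v0' m p q hm hδ0 hδ1 (Or.inl ?_)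
    · convert b11 using 2; simp; ring
    · convert b01 using 2; simp; ring
    · convert b10 using 2; simp; ring
    · convert b00' using 2; simp; ring
    · convert b00 using 2; simp; ring
  · -- mirrored blocks
    have hL := loc hα g hgα i
    have hL' := loc hγ (h * R) hhγ (j + 1 + 2 * M)
    have hsm := rev_small hα hγ ((h * R) 1 0) ((h * R) 1 1) i j M (by
      intro r hr
      have := hij (r + 1) (by omega)
      rw [show i + 1 + r = i + (r + 1) by ring,
        show j + 1 + (2 * M + 1 - 1 - r) = j + (2 * M + 3 - 1 - (r + 1)) by omega]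
      exact this)
    have hidx : j + 1 + (2 * M + 1) = j + 1 + 2 * M + 1 := by ring
    rw [hidx] at hsm
    have hsm' : |cq α (i + 1) * lu γ ((h * R) 1 0) ((h * R) 1 1) (j + 1 + 2 * M + 1)
        + lv γ ((h * R) 1 0) ((h * R) 1 1) (j + 1 + 2 * M + 1)|
        ≤ 2 * (S' * BB γ (j + 1 + 2 * M + 1)) * (1 / 2) ^ M := by
      refine hsm.trans ?_
      have h1 : |(h * R) 1 1| + |(h * R) 1 0 - pq γ 0 * (h * R) 1 1| ≤ S' := by
        have h2 : cst γ (h * R) = |(h * R) 1 1| + |(h * R) 1 0 - pq γ 0 * (h * R) 1 1| := rfl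
        rw [← h2, hS']
        have := abs_nonneg ((h * R) 0 1)
        linarith
      have h3 := hL'.hB
      gcongr
    obtain ⟨b11, b01, b10, b00⟩ := reversed_bounds hL hL' hδ0 hsm'
    obtain ⟨x, hx, hx2⟩ := exists_point (α := α) (β := γ) g h R hRdet Nᵀ hR hg hh (i + 1)
      (j + 1 + 2 * M + 1) 1 (by simp) m p q
    refine ⟨x, hx, lt_of_le_of_lt ?_ hfin⟩
    rw [Finset.prod_congr rfl fun i _ => hx2 i]
    obtain ⟨v1, v0⟩ := hbw hL hS1'
    obtain ⟨v1', v0'⟩ := hbw hL' hS1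
    have hcomm : 8 * S' * S = 8 * S * S' := by ring
    rw [← hS', hcomm] at v1' v0'
    rw [← hS] at v1 v0
    have hB := hL.hB; have hB' := hL'.hB
    have b01' : |lu α (g 0 0) (g 0 1) (i + 1) * lu γ ((h * R) 1 0) ((h * R) 1 1) (j + 1 + 2 * M + 1)
        + lv α (g 0 0) (g 0 1) (i + 1) * lv γ ((h * R) 1 0) ((h * R) 1 1) (j + 1 + 2 * M + 1)|
        ≤ b * BB γ (j + 1 + 2 * M + 1) / BB α (i + 1) := by
      refine b01.trans ?_
      have : 0 ≤ b * BB γ (j + 1 + 2 * M + 1) / BB α (i + 1) := by positivity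
      nlinarith
    refine main_bound hb0 hB hB' ?_ ?_ ?_ ?_ v1 v0 v1' v0' m p q hm hδ0 hδ1 (Or.inr ?_)
    · convert b11 using 2; simp
    · convert b01' using 2; simp
    · convert b10 using 2; simp
    · convert b00 using 2; simp
    · convert b01 using 2; simp

end Pool.Agent.K6.H32.TP
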