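import Mathlib
import Pool.Agent.K6.H32.TP4

/-! # Lattices whose orbit closures meet -/

set_option autoImplicit false

open Matrix Kronecker Filter Topology

namespace Pool.Agent.K6.H32.TP

open Pool.Agent.N759.CFr

/-- small values of `g₁ ⊗ (g₂⁻¹)ᵀ ⊗ G` if the orbit closures of `g₁` and `g₂` meet -/
theorem meet_small {n : ℕ} (hn : 2 ≤ n) (g₁ g₂ h : Matrix (Fin n) (Fin n) ℝ)
    (hg₂ : g₂.det ≠ 0) (hh : h.det ≠ 0) (N : Matrix (Fin n) (Fin n) ℤ) (hN : N.det ≠ 0)
    (a b : ℕ → Fin n → ℝ) (ha : ∀ m, |∏ i, a m i| = 1) (hb : ∀ m, |∏ i, b m i| = 1)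
    (γ₁ γ₂ : ℕ → Matrix (Fin n) (Fin n) ℤ) (hγ₁ : ∀ m, |(γ₁ m).det| = 1)
    (hγ₂ : ∀ m, |(γ₂ m).det| = 1)
    (h1 : Tendsto (fun m => diagonal (a m) * g₁ * (γ₁ m).map (Int.cast : ℤ → ℝ)) atTop (𝓝 h))
    (h2 : Tendsto (fun m => diagonal (b m) * g₂ * (γ₂ m).map (Int.cast : ℤ → ℝ)) atTop
      (𝓝 (h * N.map (Int.cast : ℤ → ℝ))))
    (r : ℕ) (hr : 0 < r) (G : Matrix (Fin r) (Fin r) ℝ) (ε : ℝ) (hε : 0 < ε) :
    ∃ x : (Fin n × Fin n) × Fin r → ℤ, x ≠ 0 ∧
      |∏ i, (((g₁ ⊗ₖ (g₂⁻¹)ᵀ) ⊗ₖ G) *ᵥ fun j => (x j : ℝ)) i| < ε := by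
  classical
  refine kron_small _ (fun η hη => ?_) r hr G ε hε
  set c : ℤ → ℝ := Int.cast with hc
  set NR : Matrix (Fin n) (Fin n) ℝ := N.map c with hNR
  have hdetmap : ∀ M : Matrix (Fin n) (Fin n) ℤ, (M.map c).det = (M.det : ℝ) := by
    intro M
    exact (RingHom.map_det (Int.castRingHom ℝ) M).symm
  have hNRdet : NR.det ≠ 0 := by
    rw [hNR, hdetmap]; exact_mod_cast hN
  have hdet2 : (h * NR).det ≠ 0 := by rw [det_mul]; exact mul_ne_zero hh hNRdet
  -- the matrices `E m`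
  set P : ℕ → Matrix (Fin n) (Fin n) ℝ := fun m => diagonal (a m) * g₁ * (γ₁ m).map c with hP
  set Q : ℕ → Matrix (Fin n) (Fin n) ℝ := fun m => diagonal (b m) * g₂ * (γ₂ m).map c with hQ
  have hQinv : Tendsto (fun m => (Q m)⁻¹) atTop (𝓝 ((h * NR)⁻¹)) := by
    have e1 : Tendsto (fun m => (Q m).det) atTop (𝓝 (h * NR).det) :=
      (Continuous.matrix_det continuous_id).continuousAt.tendsto.comp h2
    have e2 : Tendsto (fun m => (Q m).adjugate) atTop (𝓝 (h * NR).adjugate) :=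
      (Continuous.matrix_adjugate continuous_id).continuousAt.tendsto.comp h2
    have e3 : Tendsto (fun m => ((Q m).det)⁻¹ • (Q m).adjugate) atTop
        (𝓝 (((h * NR).det)⁻¹ • (h * NR).adjugate)) := (e1.inv₀ hdet2).smul e2
    have e4 : ∀ M : Matrix (Fin n) (Fin n) ℝ, M⁻¹ = (M.det)⁻¹ • M.adjugate := by
      intro M
      rw [Matrix.inv_def, Ring.inverse_eq_inv']
    simpa only [e4] using e3
  have hE : Tendsto (fun m => P m * NR * (Q m)⁻¹) atTop (𝓝 (1 : Matrix (Fin n) (Fin n) ℝ)) := by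
    have e1 := (h1.mul_const NR).mul hQinv
    have e2 : h * NR * (h * NR)⁻¹ = 1 := Matrix.mul_nonsing_inv _ (isUnit_iff_ne_zero.2 hdet2)
    rw [e2] at e1
    exact e1
  have hprod : Tendsto (fun m => ∏ p : Fin n × Fin n, (P m * NR * (Q m)⁻¹) p.1 p.2) atTop
      (𝓝 (∏ p : Fin n × Fin n, (1 : Matrix (Fin n) (Fin n) ℝ) p.1 p.2)) := by
    refine tendsto_finsetProd _ fun p _ => ?_
    exact ((continuous_apply_apply p.1 p.2).continuousAt.tendsto.comp hE)
  have hzero : ∏ p : Fin n × Fin n, (1 : Matrix (Fin n) (Fin n) ℝ) p.1 p.2 = 0 := by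
    refine Finset.prod_eq_zero (Finset.mem_univ ((⟨0, by omega⟩ : Fin n), (⟨1, by omega⟩ : Fin n))) ?_
    exact Matrix.one_apply_ne (by simp [Fin.ext_iff])
  rw [hzero] at hprod
  obtain ⟨m, hm⟩ := (((tendsto_order.1 hprod.abs).2 η (by simpa using hη))).exists
  -- the integral matrix
  have hγu : IsUnit (γ₂ m).det := Int.isUnit_iff_abs_eq.2 (hγ₂ m)
  set X : Matrix (Fin n) (Fin n) ℤ := γ₁ m * N * (γ₂ m)⁻¹ with hX
  have hXdet : X.det ≠ 0 := by
    rw [hX, det_mul, det_mul]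
    refine mul_ne_zero (mul_ne_zero ?_ hN) ?_
    · intro h0
      have := hγ₁ m
      rw [h0] at this
      simp at this
    · have e1 : ((γ₂ m)⁻¹).det * (γ₂ m).det = 1 := by
        rw [← det_mul, Matrix.nonsing_inv_mul _ hγu, det_one]
      intro h0
      rw [h0, zero_mul] at e1
      exact zero_ne_one e1
  have hXne : X ≠ 0 := by
    intro h0
    apply hXdet
    have : Nonempty (Fin n) := ⟨⟨0, by omega⟩⟩
    rw [h0]
    exact det_zero
  refine ⟨fun p => X p.1 p.2, ?_, ?_⟩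
  · intro h0
    apply hXne
    ext i j
    exact congrFun h0 (i, j)
  · -- the values
    have hXR : X.map c * (γ₂ m).map c = (γ₁ m).map c * NR := by
      have e1 : X * γ₂ m = γ₁ m * N := by
        rw [hX, Matrix.mul_assoc, Matrix.nonsing_inv_mul _ hγu, Matrix.mul_one]
      have e2 : (X * γ₂ m).map c = (γ₁ m * N).map c := by rw [e1]
      rw [show (X * γ₂ m).map c = X.map c * (γ₂ m).map c from
          Matrix.map_mul (f := Int.castRingHom ℝ),
        show (γ₁ m * N).map c = (γ₁ m).map c * N.map c from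
          Matrix.map_mul (f := Int.castRingHom ℝ)] at e2
      exact e2
    have ha0 : ∀ i, a m i ≠ 0 := by
      intro i h0
      have := ha m
      rw [Finset.prod_eq_zero (Finset.mem_univ i) h0, abs_zero] at this
      exact zero_ne_one this
    have hb0 : ∀ i, b m i ≠ 0 := by
      intro i h0
      have := hb m
      rw [Finset.prod_eq_zero (Finset.mem_univ i) h0, abs_zero] at this
      exact zero_ne_one this
    have hγ2R : ((γ₂ m).map c).det ≠ 0 := by
      rw [hdetmap]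
      exact_mod_cast hγu.ne_zero
    have hQdet : (Q m).det ≠ 0 := by
      rw [hQ]
      simp only
      rw [det_mul, det_mul, det_diagonal]
      exact mul_ne_zero (mul_ne_zero (Finset.prod_ne_zero_iff.2 fun i _ => hb0 i) hg₂) hγ2R
    -- `diag a * (g₁ X g₂⁻¹) = E * diag b`
    have hkey : diagonal (a m) * (g₁ * X.map c * g₂⁻¹) = (P m * NR * (Q m)⁻¹) * diagonal (b m) := by
      have e1 : diagonal (a m) * (g₁ * X.map c * g₂⁻¹) * (g₂ * (γ₂ m).map c) = P m * NR := by
        rw [hP]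
        simp only
        calc diagonal (a m) * (g₁ * X.map c * g₂⁻¹) * (g₂ * (γ₂ m).map c)
            = diagonal (a m) * g₁ * X.map c * (g₂⁻¹ * g₂) * (γ₂ m).map c := by
              simp only [Matrix.mul_assoc]
          _ = diagonal (a m) * g₁ * (X.map c * (γ₂ m).map c) := by
              rw [Matrix.nonsing_inv_mul _ (isUnit_iff_ne_zero.2 hg₂), Matrix.mul_one]
              simp only [Matrix.mul_assoc]
          _ = _ := by rw [hXR]; simp only [Matrix.mul_assoc]
      have e2 : (P m * NR * (Q m)⁻¹) * diagonal (b m) * (g₂ * (γ₂ m).map c) = P m * NR := by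
        have e3 : (Q m)⁻¹ * diagonal (b m) * (g₂ * (γ₂ m).map c) = 1 := by
          have e4 : diagonal (b m) * (g₂ * (γ₂ m).map c) = Q m := by
            rw [hQ]; simp only [Matrix.mul_assoc]
          rw [Matrix.mul_assoc, e4]
          exact Matrix.nonsing_inv_mul _ (isUnit_iff_ne_zero.2 hQdet)
        calc (P m * NR * (Q m)⁻¹) * diagonal (b m) * (g₂ * (γ₂ m).map c)
            = P m * NR * ((Q m)⁻¹ * diagonal (b m) * (g₂ * (γ₂ m).map c)) := by
              simp only [Matrix.mul_assoc]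
          _ = _ := by rw [e3, Matrix.mul_one]
      have hunit : IsUnit (g₂ * (γ₂ m).map c).det := by
        rw [det_mul]
        exact isUnit_iff_ne_zero.2 (mul_ne_zero hg₂ hγ2R)
      have e5 : ∀ A B : Matrix (Fin n) (Fin n) ℝ, A * (g₂ * (γ₂ m).map c) = B * (g₂ * (γ₂ m).map c) →
          A = B := by
        intro A B hAB
        have : A * (g₂ * (γ₂ m).map c) * (g₂ * (γ₂ m).map c)⁻¹
            = B * (g₂ * (γ₂ m).map c) * (g₂ * (γ₂ m).map c)⁻¹ := by rw [hAB]
        rwa [Matrix.mul_nonsing_inv_cancel_right _ _ hunit,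
          Matrix.mul_nonsing_inv_cancel_right _ _ hunit] at this
      exact e5 _ _ (e1.trans e2.symm)
    have hentry : ∀ p : Fin n × Fin n, a m p.1 * (g₁ * X.map c * g₂⁻¹) p.1 p.2
        = (P m * NR * (Q m)⁻¹) p.1 p.2 * b m p.2 := by
      intro p
      have := congrFun (congrFun hkey p.1) p.2
      rwa [Matrix.diagonal_mul, Matrix.mul_diagonal] at this
    have hvec : ∀ p : Fin n × Fin n, ((g₁ ⊗ₖ (g₂⁻¹)ᵀ) *ᵥ fun j => (X j.1 j.2 : ℝ)) p
        = (g₁ * X.map c * g₂⁻¹) p.1 p.2 := by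
      rintro ⟨i, j⟩
      simp only [mulVec, dotProduct, Fintype.sum_prod_type, kroneckerMap_apply, transpose_apply,
        Matrix.mul_apply, map_apply, Finset.sum_mul]
      rw [Finset.sum_comm]
      refine Finset.sum_congr rfl fun s _ => Finset.sum_congr rfl fun t _ => ?_
      rw [hc]
      ring
    have hPa : |∏ p : Fin n × Fin n, a m p.1| = 1 := by
      rw [Fintype.prod_prod_type]
      simp only [Finset.prod_const, Finset.card_univ, Fintype.card_fin]
      rw [Finset.prod_pow, abs_pow, ha m, one_pow]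
    have hPb : |∏ p : Fin n × Fin n, b m p.2| = 1 := by
      rw [Fintype.prod_prod_type]
      simp only [Finset.prod_const, Finset.card_univ, Fintype.card_fin]
      rw [abs_pow, hb m, one_pow]
    have hfinal : |∏ p : Fin n × Fin n, (g₁ * X.map c * g₂⁻¹) p.1 p.2|
        = |∏ p : Fin n × Fin n, (P m * NR * (Q m)⁻¹) p.1 p.2| := by
      have e1 : (∏ p : Fin n × Fin n, a m p.1) * ∏ p : Fin n × Fin n, (g₁ * X.map c * g₂⁻¹) p.1 p.2
          = (∏ p : Fin n × Fin n, (P m * NR * (Q m)⁻¹) p.1 p.2) * ∏ p : Fin n × Fin n, b m p.2 := by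
        rw [← Finset.prod_mul_distrib, ← Finset.prod_mul_distrib]
        exact Finset.prod_congr rfl fun p _ => hentry p
      have e2 := congrArg abs e1
      rw [abs_mul, abs_mul, hPa, hPb, one_mul, mul_one] at e2
      exact e2
    rw [Finset.prod_congr rfl fun p _ => hvec p, hfinal]
    exact hm

end Pool.Agent.K6.H32.TP
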